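import Pool.Agent.Helper91_AT3.Ind
import Pool.Agent.Helper22_AT3.Cnt

set_option autoImplicit false
set_option linter.unusedSectionVars false

namespace Pool.Agent.H91AT

open MvPolynomial Submodule

variable {σ K ι : Type*} [DecidableEq σ] [Fintype σ] [Field K] [DecidableEq ι] [DecidableEq K]

/-- class 1: a weighted edge vector with its shadow -/
def Cl1 (x y : σ → K) : Prop := GV y ∧ SR x y

/-- class 2: at most two nonzero entries -/
def Cl2 (x y : σ → K) : Prop := x = y ∧ (Finset.univ.filter (fun w => x w ≠ 0)).card ≤ 2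

lemma smul_single' (k s : K) (w : σ) :
    k • (Pi.single w s : σ → K) = Pi.single w (k * s) := by
  ext u
  rw [Pi.smul_apply, smul_eq_mul]
  by_cases hu : u = w
  · subst hu; rw [Pi.single_eq_same, Pi.single_eq_same]
  · rw [Pi.single_eq_of_ne hu, Pi.single_eq_of_ne hu, mul_zero]

lemma gv_smul {x : σ → K} (hx : GV x) {k : K} (hk : k ≠ 0) : GV (k • x) := by
  obtain ⟨s, hs, h⟩ := hx
  refine ⟨k * s, mul_ne_zero hk hs, ?_⟩
  rcases h with ⟨w, rfl⟩ | ⟨w, w', hww, rfl⟩
  · left; exact ⟨w, smul_single' k s w⟩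
  · right
    refine ⟨w, w', hww, ?_⟩
    rw [smul_sub, smul_single', smul_single']

lemma sr_smul {x y : σ → K} (h : SR x y) {k l : K} (hk : k ≠ 0) (hl : l ≠ 0) :
    SR (k • x) (l • y) := by
  intro w
  have := h w
  simp only [Pi.smul_apply, smul_eq_mul, mul_eq_zero, hk, hl, false_or]
  exact this

lemma gv_norm {v : σ} {y : σ → K} (hy : GV y) (hv : y v = 1) :
    y = Pi.single v 1 ∨ ∃ w, w ≠ v ∧ y = Pi.single v 1 - Pi.single w 1 := by
  obtain ⟨s, hs, ⟨w, rfl⟩ | ⟨w, w', hww, rfl⟩⟩ := hy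
  · left
    by_cases h : v = w
    · subst h
      rw [Pi.single_eq_same] at hv
      rw [hv]
    · rw [Pi.single_eq_of_ne h] at hv
      exact absurd hv zero_ne_one
  · right
    rw [Pi.sub_apply] at hv
    by_cases h : v = w
    · subst h
      rw [Pi.single_eq_same, Pi.single_eq_of_ne hww, sub_zero] at hv
      exact ⟨w', Ne.symm hww, by rw [hv]⟩
    · by_cases h' : v = w'
      · subst h'
        rw [Pi.single_eq_of_ne h, Pi.single_eq_same, zero_sub] at hv
        have hs1 : s = -1 := by rw [← hv, neg_neg]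
        refine ⟨w, fun h'' => h h''.symm, ?_⟩
        rw [hs1, Pi.single_neg, Pi.single_neg]
        abel
      · rw [Pi.single_eq_of_ne h, Pi.single_eq_of_ne h', sub_zero] at hv
        exact absurd hv zero_ne_one

lemma gv_two {v u : σ} {y y' : σ → K} (hy : GV y) (hy' : GV y') (hv : y v = 1) (hv' : y' v = 1)
    (hne : y ≠ y') (hu : u ≠ v) : y u = 0 ∨ y' u = 0 := by
  rcases gv_norm hy hv with h | ⟨w, hw, h⟩
  · left; rw [h, Pi.single_eq_of_ne hu]
  · rcases gv_norm hy' hv' with h' | ⟨w', hw', h'⟩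
    · right; rw [h', Pi.single_eq_of_ne hu]
    · by_cases h1 : u = w
      · right
        rw [h', Pi.sub_apply, Pi.single_eq_of_ne hu, Pi.single_eq_of_ne, sub_zero]
        intro h2
        apply hne
        rw [h, h', ← h1, ← h2]
      · left
        rw [h, Pi.sub_apply, Pi.single_eq_of_ne hu, Pi.single_eq_of_ne h1, sub_zero]

lemma gv_sub {v : σ} {y y' : σ → K} (hy : GV y) (hy' : GV y') (hv : y v = 1) (hv' : y' v = 1)
    (hne : y ≠ y') : GV (y - y') := by
  rcases gv_norm hy hv with h | ⟨w, hw, h⟩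
  · rcases gv_norm hy' hv' with h' | ⟨w', hw', h'⟩
    · exact absurd (h.trans h'.symm) hne
    · refine ⟨1, one_ne_zero, Or.inl ⟨w', ?_⟩⟩
      rw [h, h']; abel
  · rcases gv_norm hy' hv' with h' | ⟨w', hw', h'⟩
    · refine ⟨-1, neg_ne_zero.2 one_ne_zero, Or.inl ⟨w, ?_⟩⟩
      rw [h, h', Pi.single_neg]; abel
    · have hww : w' ≠ w := by
        rintro rfl
        exact hne (h.trans h'.symm)
      refine ⟨1, one_ne_zero, Or.inr ⟨w', w, hww, ?_⟩⟩
      rw [h, h']; abel

lemma cl1_scale (v : σ) (x y : σ → K) (h : Cl1 x y) (hx : x v ≠ 0) (hy : y v ≠ 0) :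
    Cl1 ((x v)⁻¹ • x) ((y v)⁻¹ • y) :=
  ⟨gv_smul h.1 (inv_ne_zero hy), sr_smul h.2 (inv_ne_zero hx) (inv_ne_zero hy)⟩

lemma cl1_sub (v : σ) (x y x' y' : σ → K) (h : Cl1 x y) (h' : Cl1 x' y') (hx : x v = 1)
    (hy : y v = 1) (hx' : x' v = 1) (hy' : y' v = 1) (hne : y ≠ y') :
    Cl1 (x - x') (y - y') ∧ SR (x - x') (y - y') := by
  have hsr : SR (x - x') (y - y') := by
    intro u
    rw [Pi.sub_apply, Pi.sub_apply]
    by_cases hu : u = v
    · rw [hu, hx, hx', hy, hy', sub_self]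
    · rcases gv_two h.1 h'.1 hy hy' hne hu with h1 | h1
      · rw [h1, (h.2 u).2 h1, zero_sub, zero_sub, neg_eq_zero, neg_eq_zero]
        exact h'.2 u
      · rw [h1, (h'.2 u).2 h1, sub_zero, sub_zero]
        exact h.2 u
  exact ⟨⟨gv_sub h.1 h'.1 hy hy' hne, hsr⟩, hsr⟩

lemma cl2_scale (v : σ) (x y : σ → K) (h : Cl2 x y) (_hx : x v ≠ 0) (_hy : y v ≠ 0) :
    Cl2 ((x v)⁻¹ • x) ((y v)⁻¹ • y) := by
  obtain ⟨rfl, h2⟩ := h
  refine ⟨rfl, le_trans (Finset.card_le_card ?_) h2⟩
  intro w hw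
  rw [Finset.mem_filter] at hw ⊢
  refine ⟨Finset.mem_univ _, fun h0 => hw.2 ?_⟩
  rw [Pi.smul_apply, h0, smul_zero]

lemma cl2_sub (v : σ) (x y x' y' : σ → K) (h : Cl2 x y) (h' : Cl2 x' y') (hx : x v = 1)
    (hy : y v = 1) (hx' : x' v = 1) (hy' : y' v = 1) (hne : y ≠ y') :
    Cl2 (x - x') (y - y') ∧ SR (x - x') (y - y') := by
  obtain ⟨rfl, h2⟩ := h
  obtain ⟨rfl, h2'⟩ := h'
  refine ⟨⟨rfl, ?_⟩, fun w => Iff.rfl⟩
  have h3 : Finset.univ.filter (fun w => (x - x') w ≠ 0) ⊆
      ((Finset.univ.filter (fun w => x w ≠ 0)).erase v) ∪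
        ((Finset.univ.filter (fun w => x' w ≠ 0)).erase v) := by
    intro w hw
    rw [Finset.mem_filter, Pi.sub_apply] at hw
    have hwv : w ≠ v := by
      rintro rfl
      apply hw.2
      rw [hx, hx', sub_self]
    rw [Finset.mem_union, Finset.mem_erase, Finset.mem_erase, Finset.mem_filter, Finset.mem_filter]
    by_cases h4 : x w = 0
    · right
      refine ⟨hwv, Finset.mem_univ _, ?_⟩
      intro h5
      apply hw.2
      rw [h4, h5, sub_zero]
    · left
      exact ⟨hwv, Finset.mem_univ _, h4⟩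
  have h4 : ((Finset.univ.filter (fun w => x w ≠ 0)).erase v).card ≤ 1 := by
    rw [Finset.card_erase_of_mem (Finset.mem_filter.2 ⟨Finset.mem_univ _, by rw [hx]; exact one_ne_zero⟩)]
    omega
  have h5 : ((Finset.univ.filter (fun w => x' w ≠ 0)).erase v).card ≤ 1 := by
    rw [Finset.card_erase_of_mem (Finset.mem_filter.2 ⟨Finset.mem_univ _, by rw [hx']; exact one_ne_zero⟩)]
    omega
  have h6 := (Finset.card_le_card h3).trans (Finset.card_union_le _ _)
  omega

section

variable {p : ℕ} [hp : Fact p.Prime] [CharP K p] {s : Finset (Fin p)}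

lemma two_ne (h3 : 3 ≤ p) : (2 : K) ≠ 0 := by
  intro h
  have h1 : ((2 : ℕ) : K) = 0 := by exact_mod_cast h
  rw [CharP.cast_eq_zero_iff K p] at h1
  have := Nat.le_of_dvd (by norm_num) h1
  omega

/-- class 1: three weighted spanning trees and `p - 3` unit bases -/
theorem sat_one (h3 : 3 ≤ p) (hs : s.card = 3) (S : Finset σ) (a b : ι → σ → K)
    (B : Fin p → Finset ι) (hD : Dat p S s Cl1 a b B) : Sat p S (Finset.univ.biUnion B) a := by
  refine abs_main (s := s) (Cl := Cl1) (two_ne h3) (by omega) cl1_scale cl1_sub ?_ S.card S rfl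
    a b B hD
  intro S a b B hD hS
  exact cnt_one hS hD.disj hD.bas s hs (fun i hi c hc => (hD.cl i hi c hc).1) hD.uv

/-- class 2: two bases with at most two nonzero entries in every column, `p - 2` unit bases -/
theorem sat_two (h3 : 3 ≤ p) (hs : s.card = 2) (S : Finset σ) (a b : ι → σ → K)
    (B : Fin p → Finset ι) (hD : Dat p S s Cl2 a b B) : Sat p S (Finset.univ.biUnion B) a := by
  refine abs_main (s := s) (Cl := Cl2) (two_ne h3) (by omega) cl2_scale cl2_sub ?_ S.card S rfl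
    a b B hD
  intro S a b B hD hS
  refine cnt_two hS hD.disj hD.bas s hs (fun i hi c hc => ?_) hD.uv
  have := hD.cl i hi c hc
  rw [← this.1]
  exact this.2

end

end Pool.Agent.H91AT
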