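import Pool.Agent.Helper91_AT3.Defs

set_option autoImplicit false
set_option linter.unusedSectionVars false

namespace Pool.Agent.H91AT

open MvPolynomial

variable {σ K : Type*} [DecidableEq σ] [Fintype σ] [Field K]

lemma lf_apply (v : σ → K) : lf v = ∑ i, v i • (X i : MvPolynomial σ K) := by
  unfold lf
  rw [Fintype.linearCombination_apply]

lemma lf_single (v : σ) : lf (Pi.single v (1 : K)) = X v := by
  unfold lf
  rw [Fintype.linearCombination_apply_single, one_smul]

lemma dbl_apply (p : ℕ) (S : Finset σ) (w : σ) : dbl p S w = if w ∈ S then p - 1 else 0 := by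
  unfold dbl
  rw [Finsupp.finsetSum_apply]
  by_cases h : w ∈ S
  · rw [if_pos h, Finset.sum_eq_single w]
    · simp
    · intro b _ hb; simp [hb]
    · intro h'; exact absurd h h'
  · rw [if_neg h]
    apply Finset.sum_eq_zero
    intro b hb
    have : b ≠ w := by rintro rfl; exact h hb
    simp [this]

lemma Fn_apply (p : ℕ) (S : Finset σ) (P : MvPolynomial σ K) : Fn p S P = coeff (dbl p S) P := rfl

/-- The polynomial does not involve the variable `v`. -/
def Free (v : σ) (Q : MvPolynomial σ K) : Prop := ∀ α : σ →₀ ℕ, α v ≠ 0 → coeff α Q = 0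

lemma free_one (v : σ) : Free v (1 : MvPolynomial σ K) := by
  intro α hα
  rw [coeff_one, if_neg]
  rintro rfl
  simp at hα

lemma free_add {v : σ} {P Q : MvPolynomial σ K} (hP : Free v P) (hQ : Free v Q) :
    Free v (P + Q) := by
  intro α hα
  rw [coeff_add, hP α hα, hQ α hα, add_zero]

lemma free_smul {v : σ} {P : MvPolynomial σ K} (c : K) (hP : Free v P) : Free v (c • P) := by
  intro α hα
  rw [coeff_smul, hP α hα, smul_zero]

lemma free_mul {v : σ} {P Q : MvPolynomial σ K} (hP : Free v P) (hQ : Free v Q) :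
    Free v (P * Q) := by
  intro α hα
  rw [coeff_mul]
  apply Finset.sum_eq_zero
  rintro ⟨β, γ⟩ h
  rw [Finset.HasAntidiagonal.mem_antidiagonal] at h
  have h1 : β v + γ v = α v := by rw [← h]; rfl
  by_cases hβ : β v = 0
  · have : γ v ≠ 0 := by omega
    rw [hQ γ this, mul_zero]
  · rw [hP β hβ, zero_mul]

lemma free_prod {v : σ} {ι : Type*} (A : Finset ι) (f : ι → MvPolynomial σ K)
    (h : ∀ i ∈ A, Free v (f i)) : Free v (∏ i ∈ A, f i) := by
  classical
  induction A using Finset.induction_on with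
  | empty => rw [Finset.prod_empty]; exact free_one v
  | insert i A hi ih =>
    rw [Finset.prod_insert hi]
    exact free_mul (h i (Finset.mem_insert_self _ _))
      (ih (fun j hj => h j (Finset.mem_insert_of_mem hj)))

lemma free_sum {v : σ} {ι : Type*} (A : Finset ι) (f : ι → MvPolynomial σ K)
    (h : ∀ i ∈ A, Free v (f i)) : Free v (∑ i ∈ A, f i) := by
  classical
  induction A using Finset.induction_on with
  | empty => intro α _; simp
  | insert i A hi ih =>
    rw [Finset.sum_insert hi]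
    exact free_add (h i (Finset.mem_insert_self _ _))
      (ih (fun j hj => h j (Finset.mem_insert_of_mem hj)))

lemma free_lf {v : σ} {x : σ → K} (hx : x v = 0) : Free v (lf x) := by
  rw [lf_apply]
  apply free_sum
  intro i _
  by_cases hi : i = v
  · subst hi
    rw [hx, zero_smul]
    intro α _; simp
  · apply free_smul
    intro α hα
    rw [coeff_X, if_neg]
    rintro rfl
    rw [Finsupp.single_apply, if_neg hi] at hα
    exact hα rfl

/-- the exponent vector with `k` at `v` and `p - 1` on `S` -/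
noncomputable def Ex (p : ℕ) (S : Finset σ) (v : σ) (k : ℕ) : σ →₀ ℕ :=
  Finsupp.single v k + dbl p S

lemma Ex_v {p : ℕ} {S : Finset σ} {v : σ} (hv : v ∉ S) (k : ℕ) : Ex p S v k v = k := by
  unfold Ex
  rw [Finsupp.add_apply, Finsupp.single_eq_same, dbl_apply, if_neg hv, add_zero]

lemma dbl_insert {p : ℕ} {S : Finset σ} {v : σ} (hv : v ∉ S) :
    dbl p (insert v S) = Ex p S v (p - 1) := by
  unfold dbl Ex dbl
  rw [Finset.sum_insert hv]

lemma coeff_Ex_X {p : ℕ} {S : Finset σ} {v : σ} (k : ℕ) (P : MvPolynomial σ K) :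
    coeff (Ex p S v (k + 1)) (X v * P) = coeff (Ex p S v k) P := by
  have : Ex p S v (k + 1) = Finsupp.single v 1 + Ex p S v k := by
    unfold Ex
    rw [← add_assoc, ← Finsupp.single_add, add_comm 1 k]
  rw [this, coeff_X_mul]

lemma coeff_Ex_X_zero {p : ℕ} {S : Finset σ} {v : σ} (hv : v ∉ S) (P : MvPolynomial σ K) :
    coeff (Ex p S v 0) (X v * P) = 0 := by
  rw [coeff_X_mul', if_neg]
  rw [Finsupp.mem_support_iff, Ex_v hv]
  simp

lemma Ex_zero {p : ℕ} {S : Finset σ} {v : σ} : Ex p S v 0 = dbl p S := by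
  unfold Ex
  rw [Finsupp.single_zero, zero_add]

variable {ι : Type*} [DecidableEq ι]

lemma top_coeff {p : ℕ} {S : Finset σ} {v : σ} (hv : v ∉ S) (U : ι → MvPolynomial σ K)
    (T : Finset ι) :
    ∀ (k : ℕ) (Q : MvPolynomial σ K), Free v Q → (∀ t ∈ T, Free v (U t)) → T.card ≤ k →
      coeff (Ex p S v k) ((∏ t ∈ T, (X v + U t)) * Q) = if k = T.card then coeff (dbl p S) Q else 0 := by
  induction T using Finset.induction_on with
  | empty =>
    intro k Q hQ _ _
    rw [Finset.prod_empty, one_mul, Finset.card_empty]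
    by_cases hk : k = 0
    · rw [if_pos hk, hk, Ex_zero]
    · rw [if_neg hk]
      apply hQ
      rw [Ex_v hv]; exact hk
  | insert t T ht ih =>
    intro k Q hQ hU hk
    rw [Finset.card_insert_of_notMem ht] at hk ⊢
    rw [Finset.prod_insert ht]
    have h1 : (X v + U t) * (∏ t ∈ T, (X v + U t)) * Q =
        X v * ((∏ t ∈ T, (X v + U t)) * Q) + (∏ t ∈ T, (X v + U t)) * (U t * Q) := by ring
    rw [h1, coeff_add]
    obtain ⟨m, rfl⟩ : ∃ m, k = m + 1 := ⟨k - 1, by omega⟩
    have hUT : ∀ t ∈ T, Free v (U t) := fun s hs => hU s (Finset.mem_insert_of_mem hs)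
    rw [coeff_Ex_X, ih m Q hQ hUT (by omega),
      ih (m + 1) (U t * Q) (free_mul (hU t (Finset.mem_insert_self _ _)) hQ) hUT (by omega)]
    have h2 : ¬ (m + 1 = T.card) := by omega
    rw [if_neg h2, add_zero]
    by_cases h3 : m = T.card
    · rw [if_pos h3, if_pos (by omega)]
    · rw [if_neg h3, if_neg (by omega)]

lemma sub_coeff {p : ℕ} {S : Finset σ} {v : σ} (hv : v ∉ S) (U : ι → MvPolynomial σ K)
    (T : Finset ι) :
    ∀ (k : ℕ) (Q : MvPolynomial σ K), Free v Q → (∀ t ∈ T, Free v (U t)) → T.card = k + 1 →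
      coeff (Ex p S v k) ((∏ t ∈ T, (X v + U t)) * Q) = ∑ t ∈ T, coeff (dbl p S) (U t * Q) := by
  induction T using Finset.induction_on with
  | empty =>
    intro k Q _ _ h
    rw [Finset.card_empty] at h
    omega
  | insert t T ht ih =>
    intro k Q hQ hU hk
    rw [Finset.card_insert_of_notMem ht] at hk
    rw [Finset.prod_insert ht, Finset.sum_insert ht]
    have h1 : (X v + U t) * (∏ t ∈ T, (X v + U t)) * Q =
        X v * ((∏ t ∈ T, (X v + U t)) * Q) + (∏ t ∈ T, (X v + U t)) * (U t * Q) := by ring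
    have hUT : ∀ t ∈ T, Free v (U t) := fun s hs => hU s (Finset.mem_insert_of_mem hs)
    have hk' : k = T.card := by omega
    rw [h1, coeff_add, top_coeff hv U T k (U t * Q)
      (free_mul (hU t (Finset.mem_insert_self _ _)) hQ) hUT (by omega), if_pos hk', add_comm]
    congr 1
    rcases Nat.eq_zero_or_pos k with h0 | h0
    · rw [h0, coeff_Ex_X_zero hv]
      have : T = ∅ := by rw [← Finset.card_eq_zero]; omega
      rw [this, Finset.sum_empty]
    · obtain ⟨m, rfl⟩ : ∃ m, k = m + 1 := ⟨k - 1, by omega⟩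
      rw [coeff_Ex_X]
      exact ih m Q hQ hUT (by omega)

/-- the part of a star vector outside the coordinate `v` -/
noncomputable def tl (v : σ) (x : σ → K) : σ → K := x - Pi.single v 1

lemma tl_v {v : σ} {x : σ → K} (h : x v = 1) : tl v x v = 0 := by
  unfold tl
  rw [Pi.sub_apply, Pi.single_eq_same, h, sub_self]

lemma lf_star {v : σ} (x : σ → K) : lf x = X v + lf (tl v x) := by
  unfold tl
  rw [map_sub, lf_single]
  ring

lemma tl_sub (v : σ) (x y : σ → K) : tl v x - tl v y = x - y := by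
  unfold tl
  abel

lemma pr_star (v : σ) (a : ι → σ → K) (T : Finset ι) :
    pr a T = ∏ t ∈ T, (X v + lf (tl v (a t))) := by
  unfold pr
  apply Finset.prod_congr rfl
  intro t _
  exact lf_star (a t)

lemma pr_union {a : ι → σ → K} {T Z : Finset ι} (hd : Disjoint T Z) :
    pr a (T ∪ Z) = pr a T * pr a Z := by
  unfold pr
  rw [Finset.prod_union hd]

lemma Fn_card_two {p : ℕ} {v : σ} {S : Finset σ} (hv : v ∉ S) (a : ι → σ → K) {T Z : Finset ι}
    (hT : T.card = p - 1) (h1 : ∀ t ∈ T, a t v = 1) (h0 : ∀ c ∈ Z, a c v = 0)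
    (hd : Disjoint T Z) :
    Fn p (insert v S) (pr a (T ∪ Z)) = Fn p S (pr a Z) := by
  rw [Fn_apply, Fn_apply, pr_union hd, pr_star v a T, dbl_insert hv,
    top_coeff hv (fun t => lf (tl v (a t))) T (p - 1) (pr a Z)
      (free_prod _ _ (fun c hc => free_lf (h0 c hc))) (fun t ht => free_lf (tl_v (h1 t ht)))
      (by omega), if_pos hT.symm]

lemma Fn_card_three {p : ℕ} (hp : 0 < p) {v : σ} {S : Finset σ} (hv : v ∉ S) (a : ι → σ → K)
    {T Z : Finset ι} (hT : T.card = p) (h1 : ∀ t ∈ T, a t v = 1) (h0 : ∀ c ∈ Z, a c v = 0)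
    (hd : Disjoint T Z) :
    Fn p (insert v S) (pr a (T ∪ Z)) = ∑ t ∈ T, Fn p S (lf (tl v (a t)) * pr a Z) := by
  rw [Fn_apply, pr_union hd, pr_star v a T, dbl_insert hv,
    sub_coeff hv (fun t => lf (tl v (a t))) T (p - 1) (pr a Z)
      (free_prod _ _ (fun c hc => free_lf (h0 c hc))) (fun t ht => free_lf (tl_v (h1 t ht)))
      (by omega)]
  rfl

end Pool.Agent.H91AT
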