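import Mathlib

set_option autoImplicit false
set_option linter.unusedSectionVars false

namespace Pool.Agent.H91AT

open MvPolynomial Submodule

variable {σ K ι : Type*} [DecidableEq σ] [Fintype σ] [Field K] [DecidableEq ι]

/-- The linear form of a vector. -/
noncomputable def lf : (σ → K) →ₗ[K] MvPolynomial σ K :=
  Fintype.linearCombination K (fun i => (X i : MvPolynomial σ K))

/-- The exponent vector which is `p - 1` on `S` and `0` outside. -/
noncomputable def dbl (p : ℕ) (S : Finset σ) : σ →₀ ℕ := ∑ v ∈ S, Finsupp.single v (p - 1)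

/-- The coefficient of `∏_{v ∈ S} X_v^(p-1)`. -/
noncomputable def Fn (p : ℕ) (S : Finset σ) : MvPolynomial σ K →ₗ[K] K := lcoeff K (dbl p S)

/-- The product of the linear forms of the vectors with index in `A`. -/
noncomputable def pr (a : ι → σ → K) (A : Finset ι) : MvPolynomial σ K := ∏ c ∈ A, lf (a c)

/-- The vector is supported in `S`. -/
def InS (S : Finset σ) (x : σ → K) : Prop := ∀ w ∉ S, x w = 0

/-- Some subset of `M` whose complement in `M` is a basis of `K^S` has a nonzero coefficient. -/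
def Sat (p : ℕ) (S : Finset σ) (M : Finset ι) (a : ι → σ → K) : Prop :=
  ∃ C ⊆ M, C.card = S.card ∧ LinearIndepOn K a (C : Set ι) ∧ Fn p S (pr a (M \ C)) ≠ 0

/-- `(b c)_{c ∈ B}` is a basis of `K^S`. -/
def Bas (S : Finset σ) (b : ι → σ → K) (B : Finset ι) : Prop :=
  B.card = S.card ∧ LinearIndepOn K b (B : Set ι) ∧ ∀ c ∈ B, InS S (b c)

/-- A graph vector: a multiple of `e_w` or of `e_w - e_w'`. -/
def GV (x : σ → K) : Prop :=
  ∃ s : K, s ≠ 0 ∧ ((∃ w, x = Pi.single w s) ∨ ∃ w w', w ≠ w' ∧ x = Pi.single w s - Pi.single w' s)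

/-- A nonzero multiple of a unit vector. -/
def UV (x : σ → K) : Prop := ∃ s : K, s ≠ 0 ∧ ∃ w, x = Pi.single w s

end Pool.Agent.H91AT
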