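import Pool.Agent.Helper91_AT3.Main
import Pool.Agent.Helper75_AT3.Scl

set_option autoImplicit false
set_option linter.unusedSectionVars false

namespace Pool.Agent.H91AT

open MvPolynomial Submodule

variable {σ K ι : Type*} [DecidableEq σ] [Fintype σ] [Field K] [DecidableEq ι] [DecidableEq K]

/-- number of star elements -/
def tt (b : ι → σ → K) (v : σ) (B : Finset ι) : ℕ := (B.filter (fun c => b c v ≠ 0)).card

section ind

variable {p : ℕ} [hp : Fact p.Prime] [CharP K p] {s : Finset (Fin p)}
  {Cl : (σ → K) → (σ → K) → Prop}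

lemma tt_sum {S : Finset σ} {a b : ι → σ → K} {B : Fin p → Finset ι} {v : σ}
    (hD : Dat p S s Cl a b B) :
    ((Finset.univ.biUnion B).filter (fun c => b c v ≠ 0)).card = ∑ i, tt b v (B i) := by
  have h1 : (Finset.univ.biUnion B).filter (fun c => b c v ≠ 0) =
      Finset.univ.biUnion (fun i => (B i).filter (fun c => b c v ≠ 0)) := by
    ext c
    simp only [Finset.mem_filter, Finset.mem_biUnion, Finset.mem_univ, true_and]
    constructor
    · rintro ⟨⟨i, hi⟩, h⟩
      exact ⟨i, hi, h⟩
    · rintro ⟨i, hi, h⟩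
      exact ⟨⟨i, hi⟩, h⟩
  rw [h1, Finset.card_biUnion]
  · rfl
  · intro i _ j _ hij
    exact (hD.disj i j hij).mono (Finset.filter_subset _ _) (Finset.filter_subset _ _)

lemma tt_pos {S : Finset σ} {a b : ι → σ → K} {B : Fin p → Finset ι} {v : σ} (hv : v ∈ S)
    (hD : Dat p S s Cl a b B) (i : Fin p) : 1 ≤ tt b v (B i) := by
  obtain ⟨c, hc, h⟩ := bas_star (hD.bas i) hv
  exact Finset.card_pos.2 ⟨c, Finset.mem_filter.2 ⟨hc, h⟩⟩

lemma tt_uv {S : Finset σ} {a b : ι → σ → K} {B : Fin p → Finset ι} {v : σ}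
    (hD : Dat p S s Cl a b B) (i : Fin p) (hi : i ∉ s) : tt b v (B i) ≤ 1 := by
  unfold tt
  rw [Finset.card_le_one]
  intro x hx y hy
  rw [Finset.mem_filter] at hx hy
  exact uv_one (hD.bas i) (hD.uv i hi) hx.1 hy.1 hx.2 hy.2

/-- arithmetic of the star numbers -/
lemma tt_arith (t : Fin p → ℕ) (h1 : ∀ i, 1 ≤ t i) (hs : ∑ i, t i ≤ p + 2) :
    ((∀ i, t i = 1 ∨ t i = 2) ∧ (Finset.univ.filter (fun i => t i = 2)).card ≤ 2) ∨
    ∃ k, t k = 3 ∧ ∀ l, l ≠ k → t l = 1 := by
  have key : ∑ i, (t i - 1) ≤ 2 := by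
    have h2 : ∑ i, t i = ∑ i, (t i - 1) + p := by
      have : ∑ i : Fin p, t i = ∑ i : Fin p, ((t i - 1) + 1) := by
        apply Finset.sum_congr rfl
        intro i _
        have := h1 i
        omega
      rw [this, Finset.sum_add_distrib]
      simp
    omega
  by_cases h3 : ∃ k, 3 ≤ t k
  · obtain ⟨k, hk⟩ := h3
    right
    have h4 := Finset.add_sum_erase Finset.univ (fun i => t i - 1) (Finset.mem_univ k)
    have h5 : ∑ i ∈ Finset.univ.erase k, (t i - 1) = 0 ∧ t k = 3 := by
      omega
    refine ⟨k, h5.2, ?_⟩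
    intro l hl
    have h6 := (Finset.sum_eq_zero_iff.1 h5.1) l (Finset.mem_erase.2 ⟨hl, Finset.mem_univ _⟩)
    have := h1 l
    omega
  · left
    push Not at h3
    refine ⟨fun i => ?_, ?_⟩
    · have := h1 i
      have := h3 i
      omega
    · calc (Finset.univ.filter (fun i => t i = 2)).card
          = ∑ i ∈ Finset.univ.filter (fun i => t i = 2), (t i - 1) := by
            rw [Finset.card_eq_sum_ones]
            apply Finset.sum_congr rfl
            intro i hi
            rw [(Finset.mem_filter.1 hi).2]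
        _ ≤ ∑ i, (t i - 1) := Finset.sum_le_univ_sum_of_nonneg (fun i => Nat.zero_le _)
        _ ≤ 2 := key

/-- exchange inside the special bases -/
lemma exch_step (h2 : (2 : K) ≠ 0) (hs : 2 ≤ s.card) {S : Finset σ} {a b : ι → σ → K}
    {B : Fin p → Finset ι} {v : σ} (hD : Dat p S s Cl a b B) {k : Fin p}
    (hk : tt b v (B k) = 3) (hl : ∀ l, l ≠ k → tt b v (B l) = 1) :
    ∃ B' : Fin p → Finset ι, Dat p S s Cl a b B' ∧
      Finset.univ.biUnion B' = Finset.univ.biUnion B ∧
      (∀ i, tt b v (B' i) = 1 ∨ tt b v (B' i) = 2) ∧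
      (Finset.univ.filter (fun i => tt b v (B' i) = 2)).card ≤ 2 := by
  classical
  have hks : k ∈ s := by
    by_contra h
    have := tt_uv (v := v) hD k h
    omega
  obtain ⟨l, hls, hlk⟩ := Finset.exists_mem_ne (by omega : 1 < s.card) k
  obtain ⟨c, hc, hcv, g, hg, hgv, hB1, hB2⟩ := bas_exchange (v := v) h2 (hD.disj k l (Ne.symm hlk))
    (hD.bas k) (hD.bas l) hk (hl l hlk)
  have hBd : ∀ i j e, e ∈ B i → e ∈ B j → i = j := by
    intro i j e hi hj
    by_contra h
    exact Finset.disjoint_left.1 (hD.disj i j h) hi hj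
  have hgk : g ∉ B k := fun h => hlk (hBd _ _ _ hg h)
  have hcl : c ∉ B l := fun h => hlk (hBd _ _ _ h hc)
  set B' : Fin p → Finset ι := fun i => if i = k then insert g ((B k).erase c)
    else if i = l then insert c ((B l).erase g) else B i with hB'
  have hk' : B' k = insert g ((B k).erase c) := if_pos rfl
  have hl' : B' l = insert c ((B l).erase g) := by
    rw [hB']
    beta_reduce
    rw [if_neg hlk, if_pos rfl]
  have ho' : ∀ i, i ≠ k → i ≠ l → B' i = B i := by
    intro i h1 h2
    rw [hB']
    beta_reduce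
    rw [if_neg h1, if_neg h2]
  have htk : tt b v (B' k) = 2 := by
    rw [hk']
    unfold tt
    rw [Finset.filter_insert, if_neg (by simpa using hgv), Finset.filter_erase,
      Finset.card_erase_of_mem (Finset.mem_filter.2 ⟨hc, hcv⟩)]
    unfold tt at hk
    omega
  have htl : tt b v (B' l) = 2 := by
    rw [hl']
    unfold tt
    have h3 : g ∉ (B l).filter (fun c => b c v ≠ 0) := fun h => (Finset.mem_filter.1 h).2 hgv
    rw [Finset.filter_insert, if_pos hcv, Finset.filter_erase, Finset.erase_eq_of_notMem h3,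
      Finset.card_insert_of_notMem (fun h => hcl (Finset.mem_filter.1 h).1)]
    have := hl l hlk
    unfold tt at this
    omega
  have hto : ∀ i, i ≠ k → i ≠ l → tt b v (B' i) = 1 := by
    intro i h1 h2
    rw [ho' i h1 h2]; exact hl i h1
  -- membership
  have hmemB' : ∀ i e, e ∈ B' i → (e ∈ B i ∧ (e ≠ c ∨ i ≠ k) ∧ (e ≠ g ∨ i ≠ l)) ∨
      (i = k ∧ e = g) ∨ (i = l ∧ e = c) := by
    intro i e he
    by_cases h1 : i = k
    · subst h1
      rw [hk', Finset.mem_insert, Finset.mem_erase] at he
      rcases he with he | he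
      · right; left; exact ⟨rfl, he⟩
      · left; exact ⟨he.2, Or.inl he.1, Or.inr (Ne.symm hlk)⟩
    · by_cases h2 : i = l
      · subst h2
        rw [hl', Finset.mem_insert, Finset.mem_erase] at he
        rcases he with he | he
        · right; right; exact ⟨rfl, he⟩
        · left; exact ⟨he.2, Or.inr h1, Or.inl he.1⟩
      · rw [ho' i h1 h2] at he
        left; exact ⟨he, Or.inr h1, Or.inr h2⟩
  have hex : ∀ i e, e ∈ B' i → ∃ j, e ∈ B j ∧ (i ∈ s → j ∈ s) ∧ (i ∉ s → j = i) := by
    intro i e he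
    rcases hmemB' i e he with h | ⟨h, h'⟩ | ⟨h, h'⟩
    · exact ⟨i, h.1, fun h => h, fun _ => rfl⟩
    · refine ⟨l, by rw [h']; exact hg, fun _ => hls, fun hi => absurd (by rw [h]; exact hks) hi⟩
    · refine ⟨k, by rw [h']; exact hc, fun _ => hks, fun hi => absurd (by rw [h]; exact hls) hi⟩
  refine ⟨B', ⟨?_, ?_, ?_, ?_, ?_⟩, ?_, ?_, ?_⟩
  · intro i j hij
    rw [Finset.disjoint_left]
    intro e hi hj
    rcases hmemB' i e hi with h | ⟨h, h'⟩ | ⟨h, h'⟩ <;>
      rcases hmemB' j e hj with h3 | ⟨h3, h4⟩ | ⟨h3, h4⟩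
    · exact hij (hBd i j e h.1 h3.1)
    · -- e = g, j = k, e in B i
      rw [h4] at h
      have : i = l := hBd _ _ _ h.1 hg
      rcases h.2.2 with h5 | h5
      · exact h5 rfl
      · exact h5 this
    · rw [h4] at h
      have : i = k := hBd _ _ _ h.1 hc
      rcases h.2.1 with h5 | h5
      · exact h5 rfl
      · exact h5 this
    · rw [h'] at h3
      have : j = l := hBd _ _ _ h3.1 hg
      rcases h3.2.2 with h5 | h5
      · exact h5 rfl
      · exact h5 this
    · exact hij (h.trans h3.symm)
    · rw [h'] at h4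
      rw [h4] at hgk
      exact hgk hc
    · rw [h'] at h3
      have : j = k := hBd _ _ _ h3.1 hc
      rcases h3.2.1 with h5 | h5
      · exact h5 rfl
      · exact h5 this
    · rw [h'] at h4
      rw [← h4] at hgk
      exact hgk hc
    · exact hij (h.trans h3.symm)
  · intro i
    by_cases h1 : i = k
    · subst h1; rw [hk']; exact hB1
    · by_cases h2 : i = l
      · subst h2; rw [hl']; exact hB2
      · rw [ho' i h1 h2]; exact hD.bas i
  · intro i hi e he
    obtain ⟨j, hj, hjs, _⟩ := hex i e he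
    exact hD.cl j (hjs hi) e hj
  · intro i hi e he
    obtain ⟨j, hj, _, hji⟩ := hex i e he
    rw [hji hi] at hj
    exact hD.uv i hi e hj
  · intro i e he
    obtain ⟨j, hj, _, _⟩ := hex i e he
    exact hD.sr j e hj
  · ext e
    simp only [Finset.mem_biUnion, Finset.mem_univ, true_and]
    constructor
    · rintro ⟨i, hi⟩
      obtain ⟨j, hj, _, _⟩ := hex i e hi
      exact ⟨j, hj⟩
    · rintro ⟨i, hi⟩
      by_cases h1 : e = c
      · exact ⟨l, by rw [hl', h1]; exact Finset.mem_insert_self _ _⟩
      · by_cases h2 : e = g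
        · exact ⟨k, by rw [hk', h2]; exact Finset.mem_insert_self _ _⟩
        · refine ⟨i, ?_⟩
          by_cases h3 : i = k
          · subst h3
            rw [hk', Finset.mem_insert, Finset.mem_erase]
            exact Or.inr ⟨h1, hi⟩
          · by_cases h4 : i = l
            · subst h4
              rw [hl', Finset.mem_insert, Finset.mem_erase]
              exact Or.inr ⟨h2, hi⟩
            · rw [ho' i h3 h4]; exact hi
  · intro i
    by_cases h1 : i = k
    · subst h1; exact Or.inr htk
    · by_cases h2 : i = l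
      · subst h2; exact Or.inr htl
      · exact Or.inl (hto i h1 h2)
  · have : Finset.univ.filter (fun i => tt b v (B' i) = 2) ⊆ {k, l} := by
      intro i hi
      rw [Finset.mem_filter] at hi
      rw [Finset.mem_insert, Finset.mem_singleton]
      by_contra hcon
      push Not at hcon
      have := hto i hcon.1 hcon.2
      omega
    exact (Finset.card_le_card this).trans Finset.card_le_two

/-- **The abstract theorem.** -/
theorem abs_main (h2 : (2 : K) ≠ 0) (hs : 2 ≤ s.card)
    (hCl2 : ∀ (v : σ) (x y : σ → K), Cl x y → x v ≠ 0 → y v ≠ 0 →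
      Cl ((x v)⁻¹ • x) ((y v)⁻¹ • y))
    (hCl3 : ∀ (v : σ) (x y x' y' : σ → K), Cl x y → Cl x' y' → x v = 1 → y v = 1 → x' v = 1 →
      y' v = 1 → y ≠ y' → Cl (x - x') (y - y') ∧ SR (x - x') (y - y'))
    (hcount : ∀ (S : Finset σ) (a b : ι → σ → K) (B : Fin p → Finset ι), Dat p S s Cl a b B →
      S.Nonempty → ∃ v ∈ S, ((Finset.univ.biUnion B).filter (fun c => b c v ≠ 0)).card ≤ p + 2) :
    ∀ (n : ℕ) (S : Finset σ), S.card = n → ∀ (a b : ι → σ → K) (B : Fin p → Finset ι),
      Dat p S s Cl a b B → Sat p S (Finset.univ.biUnion B) a := by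
  classical
  intro n
  induction n with
  | zero =>
    intro S hS a b B hD
    have hS0 : S = ∅ := Finset.card_eq_zero.1 hS
    subst hS0
    have hB : ∀ i, B i = ∅ := by
      intro i
      have := (hD.bas i).1
      rw [Finset.card_empty] at this
      exact Finset.card_eq_zero.1 this
    have hM : Finset.univ.biUnion B = ∅ := by
      ext e
      simp [hB]
    rw [hM]
    refine ⟨∅, Finset.Subset.refl _, rfl, ?_, ?_⟩
    · rw [Finset.coe_empty]; exact linearIndepOn_empty K a
    · have h3 : pr a ((∅ : Finset ι) \ ∅) = 1 := by unfold pr; simp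
      have h4 : dbl p (∅ : Finset σ) = 0 := by unfold dbl; simp
      rw [h3, Fn_apply, h4]
      simp
  | succ n ih =>
    intro S hS a b B hD
    have hne : S.Nonempty := by rw [← Finset.card_pos, hS]; omega
    obtain ⟨v, hvS, hcnt⟩ := hcount S a b B hD hne
    obtain ⟨S', hv, rfl⟩ : ∃ S', v ∉ S' ∧ insert v S' = S :=
      ⟨S.erase v, Finset.notMem_erase v S, Finset.insert_erase hvS⟩
    have hS' : S'.card = n := by
      rw [Finset.card_insert_of_notMem hv] at hS
      omega
    -- normalisation
    set ka : ι → K := fun c => if b c v = 0 then 1 else (a c v)⁻¹ with hka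
    set kb : ι → K := fun c => if b c v = 0 then 1 else (b c v)⁻¹ with hkb
    set a₁ : ι → σ → K := fun c => ka c • a c with ha₁
    set b₁ : ι → σ → K := fun c => kb c • b c with hb₁
    have hsr : ∀ i, ∀ c ∈ B i, (a c v = 0 ↔ b c v = 0) := fun i c hc => hD.sr i c hc v
    have hka0 : ∀ i, ∀ c ∈ B i, ka c ≠ 0 := by
      intro i c hc
      simp only [hka]
      split_ifs with h
      · exact one_ne_zero
      · exact inv_ne_zero (fun h' => h ((hsr i c hc).1 h'))
    have hkb0 : ∀ c, kb c ≠ 0 := by
      intro c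
      simp only [hkb]
      split_ifs with h
      · exact one_ne_zero
      · exact inv_ne_zero h
    have hb₁v : ∀ c, b₁ c v ≠ 0 ↔ b c v ≠ 0 := by
      intro c
      simp only [hb₁, Pi.smul_apply, smul_eq_mul]
      constructor
      · intro h h'; apply h; rw [h', mul_zero]
      · intro h; exact mul_ne_zero (hkb0 c) h
    have hn : ∀ i, ∀ c ∈ B i, b₁ c v ≠ 0 → a₁ c v = 1 ∧ b₁ c v = 1 := by
      intro i c hc h
      rw [hb₁v] at h
      simp only [ha₁, hb₁, hka, hkb, Pi.smul_apply, smul_eq_mul, if_neg h]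
      exact ⟨inv_mul_cancel₀ (fun h' => h ((hsr i c hc).1 h')), inv_mul_cancel₀ h⟩
    have hD₁ : Dat p (insert v S') s Cl a₁ b₁ B := by
      refine ⟨hD.disj, ?_, ?_, ?_, ?_⟩
      · intro i
        exact (H75.bas_scale (k := kb) (M := B i) _ (fun c _ => rfl) (fun c _ => hkb0 c) (B i)
          (Finset.Subset.refl _)).2 (hD.bas i)
      · intro i hi c hc
        by_cases h : b c v = 0
        · have h3 : a₁ c = a c := by simp only [ha₁, hka, if_pos h, one_smul]
          have h4 : b₁ c = b c := by simp only [hb₁, hkb, if_pos h, one_smul]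
          rw [h3, h4]; exact hD.cl i hi c hc
        · have h3 : a₁ c = (a c v)⁻¹ • a c := by simp only [ha₁, hka, if_neg h]
          have h4 : b₁ c = (b c v)⁻¹ • b c := by simp only [hb₁, hkb, if_neg h]
          rw [h3, h4]
          exact hCl2 v _ _ (hD.cl i hi c hc) (fun h' => h ((hsr i c hc).1 h')) h
      · intro i hi c hc
        obtain ⟨t, ht, w, hw⟩ := hD.uv i hi c hc
        refine ⟨kb c * t, mul_ne_zero (hkb0 c) ht, w, ?_⟩
        simp only [hb₁]
        rw [hw]
        ext u
        rw [Pi.smul_apply, smul_eq_mul]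
        by_cases hu : u = w
        · subst hu; rw [Pi.single_eq_same, Pi.single_eq_same]
        · rw [Pi.single_eq_of_ne hu, Pi.single_eq_of_ne hu, mul_zero]
      · intro i c hc w
        have h3 := hD.sr i c hc w
        simp only [ha₁, hb₁, Pi.smul_apply, smul_eq_mul, mul_eq_zero]
        constructor
        · rintro (h | h)
          · exact absurd h (hka0 i c hc)
          · exact Or.inr (h3.1 h)
        · rintro (h | h)
          · exact absurd h (hkb0 c)
          · exact Or.inr (h3.2 h)
    have hcnt₁ : ((Finset.univ.biUnion B).filter (fun c => b₁ c v ≠ 0)).card ≤ p + 2 := by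
      have : (Finset.univ.biUnion B).filter (fun c => b₁ c v ≠ 0) =
          (Finset.univ.biUnion B).filter (fun c => b c v ≠ 0) := by
        apply Finset.filter_congr
        intro c _
        exact hb₁v c
      rw [this]; exact hcnt
    have hfin : Sat p (insert v S') (Finset.univ.biUnion B) a₁ := by
      rw [tt_sum hD₁] at hcnt₁
      have hcase := tt_arith (fun i => tt b₁ v (B i))
        (fun i => tt_pos (Finset.mem_insert_self _ _) hD₁ i) hcnt₁
      rcases hcase with ⟨h3, h4⟩ | ⟨k, h3, h4⟩
      · exact reduce hv (hCl3 v) hD₁ hn h3 h4 (fun a' b' B' h => ih S' hS' a' b' B' h)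
      · obtain ⟨B', hD', hU, h5, h6⟩ := exch_step (v := v) h2 hs hD₁ h3 h4
        rw [← hU]
        refine reduce hv (hCl3 v) hD' ?_ h5 h6 (fun a' b' B' h => ih S' hS' a' b' B' h)
        intro i c hc h
        have : c ∈ Finset.univ.biUnion B := by
          rw [← hU, Finset.mem_biUnion]; exact ⟨i, Finset.mem_univ _, hc⟩
        rw [Finset.mem_biUnion] at this
        obtain ⟨j, _, hj⟩ := this
        exact hn j c hj h
    refine (H75.sat_scale (k := ka) p _ (fun c _ => rfl) ?_).1 hfin
    intro c hc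
    rw [Finset.mem_biUnion] at hc
    obtain ⟨i, _, hi⟩ := hc
    exact hka0 i c hi

end ind

end Pool.Agent.H91AT
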