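import Pool.Agent.Helper91_AT3.Red3
import Pool.Agent.Helper64_AT3.Bas

set_option autoImplicit false
set_option linter.unusedSectionVars false

namespace Pool.Agent.H91AT

open MvPolynomial Submodule

variable {σ K ι : Type*} [DecidableEq σ] [Fintype σ] [Field K] [DecidableEq ι] [DecidableEq K]

/-- same support -/
def SR (x y : σ → K) : Prop := ∀ w, x w = 0 ↔ y w = 0

/-- The data of the induction: `p` disjoint families which are bases (for the shadows `b`), those
with index in `s` consist of vectors of the class `Cl`, the others of unit vectors. -/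
structure Dat (p : ℕ) (S : Finset σ) (s : Finset (Fin p)) (Cl : (σ → K) → (σ → K) → Prop)
    (a b : ι → σ → K) (B : Fin p → Finset ι) : Prop where
  disj : ∀ i j, i ≠ j → Disjoint (B i) (B j)
  bas : ∀ i, Bas S b (B i)
  cl : ∀ i ∈ s, ∀ c ∈ B i, Cl (a c) (b c)
  uv : ∀ i, i ∉ s → ∀ c ∈ B i, UV (b c)
  sr : ∀ i, ∀ c ∈ B i, SR (a c) (b c)

lemma bas_congr {S : Finset σ} {b b' : ι → σ → K} {B : Finset ι} (h : ∀ c ∈ B, b' c = b c)
    (hB : Bas S b B) : Bas S b' B := by
  refine ⟨hB.1, li_congr' (fun c hc => (h c hc).symm) hB.2.1, ?_⟩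
  intro c hc
  rw [h c hc]
  exact hB.2.2 c hc

lemma bas_inj {S : Finset σ} {b : ι → σ → K} {B : Finset ι} (hB : Bas S b B) {x y : ι}
    (hx : x ∈ B) (hy : y ∈ B) (hxy : x ≠ y) : b x ≠ b y := by
  intro h
  exact hxy (hB.2.1.injOn hx hy h)

lemma uv_one {S : Finset σ} {b : ι → σ → K} {B : Finset ι} (hB : Bas S b B)
    (hU : ∀ c ∈ B, UV (b c)) {v : σ} {x y : ι} (hx : x ∈ B) (hy : y ∈ B) (hxv : b x v ≠ 0)
    (hyv : b y v ≠ 0) : x = y := by
  by_contra hxy
  obtain ⟨s, hs, w, hw⟩ := hU x hx
  obtain ⟨t, ht, u, hu⟩ := hU y hy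
  have hwv : w = v := by
    by_contra hne
    apply hxv
    rw [hw, Pi.single_eq_of_ne (fun h => hne h.symm)]
  have huv : u = v := by
    by_contra hne
    apply hyv
    rw [hu, Pi.single_eq_of_ne (fun h => hne h.symm)]
  rw [hwv] at hw
  rw [huv] at hu
  have hyB : x ∉ B.erase x := Finset.notMem_erase x B
  have hli : LinearIndepOn K b ((insert x (B.erase x) : Finset ι) : Set ι) := by
    rw [Finset.insert_erase hx]; exact hB.2.1
  rw [li_insert hyB] at hli
  apply hli.2
  have : b x = (s * t⁻¹) • b y := by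
    rw [hw, hu]
    ext i
    rw [Pi.smul_apply, smul_eq_mul]
    by_cases hi : i = v
    · subst hi
      rw [Pi.single_eq_same, Pi.single_eq_same, mul_assoc, inv_mul_cancel₀ ht, mul_one]
    · rw [Pi.single_eq_of_ne hi, Pi.single_eq_of_ne hi, mul_zero]
  rw [this]
  apply Submodule.smul_mem
  apply subset_span
  refine ⟨y, ?_, rfl⟩
  rw [Finset.mem_coe, Finset.mem_erase]
  exact ⟨fun h => hxy h.symm, hy⟩

section reduce

variable {p : ℕ} [hp : Fact p.Prime] [CharP K p] {v : σ} {S : Finset σ} {s : Finset (Fin p)}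
  {Cl : (σ → K) → (σ → K) → Prop} {a b : ι → σ → K} {B : Fin p → Finset ι}

/-- the reduction, when every basis has one or two star elements and at most two of them have
two -/
lemma reduce (hv : v ∉ S)
    (hCl3 : ∀ x y x' y' : σ → K, Cl x y → Cl x' y' → x v = 1 → y v = 1 → x' v = 1 → y' v = 1 →
      y ≠ y' → Cl (x - x') (y - y') ∧ SR (x - x') (y - y'))
    (hD : Dat p (insert v S) s Cl a b B)
    (hn : ∀ i, ∀ c ∈ B i, b c v ≠ 0 → a c v = 1 ∧ b c v = 1)
    (ht : ∀ i, ((B i).filter (fun c => b c v ≠ 0)).card = 1 ∨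
      ((B i).filter (fun c => b c v ≠ 0)).card = 2)
    (hI : (Finset.univ.filter (fun i => ((B i).filter (fun c => b c v ≠ 0)).card = 2)).card ≤ 2)
    (IH : ∀ (a' b' : ι → σ → K) (B' : Fin p → Finset ι), Dat p S s Cl a' b' B' →
      Sat p S (Finset.univ.biUnion B') a') :
    Sat p (insert v S) (Finset.univ.biUnion B) a := by
  classical
  set I2 := Finset.univ.filter (fun i => ((B i).filter (fun c => b c v ≠ 0)).card = 2) with hI2
  -- choose the pairs
  have hch : ∀ i : Fin p, ∃ x y : ι, i ∈ I2 →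
      x ≠ y ∧ (B i).filter (fun c => b c v ≠ 0) = {x, y} := by
    intro i
    by_cases hi : i ∈ I2
    · rw [hI2, Finset.mem_filter] at hi
      obtain ⟨x, y, hxy, h⟩ := Finset.card_eq_two.1 hi.2
      exact ⟨x, y, fun _ => ⟨hxy, h⟩⟩
    · obtain ⟨c, hc, _⟩ := bas_star (hD.bas i) (Finset.mem_insert_self v S)
      exact ⟨c, c, fun h => absurd h hi⟩
  choose x y hxy using hch
  have hne : ∀ i ∈ I2, x i ≠ y i := fun i hi => (hxy i hi).1
  have hxB : ∀ i ∈ I2, x i ∈ B i ∧ b (x i) v ≠ 0 := by
    intro i hi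
    have : x i ∈ (B i).filter (fun c => b c v ≠ 0) := by rw [(hxy i hi).2]; simp
    rw [Finset.mem_filter] at this
    exact this
  have hyB : ∀ i ∈ I2, y i ∈ B i ∧ b (y i) v ≠ 0 := by
    intro i hi
    have : y i ∈ (B i).filter (fun c => b c v ≠ 0) := by rw [(hxy i hi).2]; simp
    rw [Finset.mem_filter] at this
    exact this
  have hother : ∀ i ∈ I2, ∀ c ∈ B i, c ≠ x i → c ≠ y i → b c v = 0 := by
    intro i hi c hc h1 h2
    by_contra h3
    have : c ∈ (B i).filter (fun c => b c v ≠ 0) := by rw [Finset.mem_filter]; exact ⟨hc, h3⟩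
    rw [(hxy i hi).2, Finset.mem_insert, Finset.mem_singleton] at this
    rcases this with h | h
    · exact h1 h
    · exact h2 h
  have hBd : ∀ i j c, c ∈ B i → c ∈ B j → i = j := by
    intro i j c hi hj
    by_contra h
    exact Finset.disjoint_left.1 (hD.disj i j h) hi hj
  -- the new vectors
  set X := I2.image x with hX
  set new : (ι → σ → K) → ι → σ → K :=
    fun f c => f c - ∑ i ∈ I2.filter (fun i => x i = c), f (y i) with hnew
  have new1 : ∀ (f : ι → σ → K), ∀ i ∈ I2, new f (x i) = f (x i) - f (y i) := by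
    intro f i hi
    have : I2.filter (fun j => x j = x i) = {i} := by
      ext j
      rw [Finset.mem_filter, Finset.mem_singleton]
      constructor
      · rintro ⟨hj, h⟩
        apply hBd j i (x i)
        · rw [← h]; exact (hxB j hj).1
        · exact (hxB i hi).1
      · rintro rfl
        exact ⟨hi, rfl⟩
    simp only [hnew]
    rw [this, Finset.sum_singleton]
  have new2 : ∀ (f : ι → σ → K), ∀ c, c ∉ X → new f c = f c := by
    intro f c hc
    have : I2.filter (fun j => x j = c) = ∅ := by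
      rw [Finset.filter_eq_empty_iff]
      intro j hj h
      apply hc
      rw [hX, Finset.mem_image]
      exact ⟨j, hj, h⟩
    simp only [hnew]
    rw [this, Finset.sum_empty, sub_zero]
  have hXB : ∀ i, ∀ c ∈ B i, c ∈ X → i ∈ I2 ∧ c = x i := by
    intro i c hc hcX
    rw [hX, Finset.mem_image] at hcX
    obtain ⟨j, hj, hjc⟩ := hcX
    have : i = j := hBd i j c hc (by rw [← hjc]; exact (hxB j hj).1)
    subst this
    exact ⟨hj, hjc.symm⟩
  set B' : Fin p → Finset ι :=
    fun i => if i ∈ I2 then (B i).erase (y i) else (B i).filter (fun c => b c v = 0) with hB'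
  have hB'1 : ∀ i ∈ I2, B' i = (B i).erase (y i) := by
    intro i hi
    simp only [hB']
    rw [if_pos hi]
  have hB'2 : ∀ i, i ∉ I2 → B' i = (B i).filter (fun c => b c v = 0) := by
    intro i hi
    simp only [hB']
    rw [if_neg hi]
  have hB'sub : ∀ i, B' i ⊆ B i := by
    intro i
    by_cases hi : i ∈ I2
    · rw [hB'1 i hi]; exact Finset.erase_subset _ _
    · rw [hB'2 i hi]; exact Finset.filter_subset _ _
  have hone : ∀ i, i ∉ s → i ∉ I2 := by
    intro i hi hi2
    apply hne i hi2
    exact uv_one (hD.bas i) (hD.uv i hi) (hxB i hi2).1 (hyB i hi2).1 (hxB i hi2).2 (hyB i hi2).2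
  have hnotX : ∀ i, i ∉ I2 → ∀ c ∈ B i, c ∉ X := fun i hi c hc hcX => hi (hXB i c hc hcX).1
  have hD' : Dat p S s Cl (new a) (new b) B' := by
    refine ⟨?_, ?_, ?_, ?_, ?_⟩
    · intro i j hij
      exact (hD.disj i j hij).mono (hB'sub i) (hB'sub j)
    · intro i
      by_cases hi : i ∈ I2
      · rw [hB'1 i hi]
        refine bas_two hv (hD.bas i) (hxB i hi).1 (hyB i hi).1 (hne i hi)
          (hn i _ (hxB i hi).1 (hxB i hi).2).2 (hn i _ (hyB i hi).1 (hyB i hi).2).2
          (hother i hi) (new1 b i hi) ?_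
        intro c hc h1 _
        exact new2 b c (fun h => h1 (hXB i c hc h).2)
      · rw [hB'2 i hi]
        have h1 : ((B i).filter (fun c => b c v ≠ 0)).card = 1 := by
          rcases ht i with h | h
          · exact h
          · exact absurd (by rw [hI2, Finset.mem_filter]; exact ⟨Finset.mem_univ _, h⟩) hi
        obtain ⟨z, hz⟩ := Finset.card_eq_one.1 h1
        have hzm : z ∈ (B i).filter (fun c => b c v ≠ 0) := by rw [hz]; simp
        rw [Finset.mem_filter] at hzm
        have h0 : ∀ c ∈ B i, c ≠ z → b c v = 0 := by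
          intro c hc hcz
          by_contra h
          have : c ∈ (B i).filter (fun c => b c v ≠ 0) := by
            rw [Finset.mem_filter]; exact ⟨hc, h⟩
          rw [hz, Finset.mem_singleton] at this
          exact hcz this
        have h3 : (B i).filter (fun c => b c v = 0) = (B i).erase z := by
          ext c
          rw [Finset.mem_filter, Finset.mem_erase]
          constructor
          · rintro ⟨h4, h5⟩
            refine ⟨?_, h4⟩
            rintro rfl
            exact hzm.2 h5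
          · rintro ⟨h4, h5⟩
            exact ⟨h5, h0 c h5 h4⟩
        rw [h3]
        apply bas_congr (b := b)
        · intro c hc
          exact new2 b c (hnotX i hi c (Finset.mem_of_mem_erase hc))
        · exact bas_one hv (hD.bas i) hzm.1 h0
    · intro i hi c hc
      by_cases hcX : c ∈ X
      · obtain ⟨hi2, rfl⟩ := hXB i c (hB'sub i hc) hcX
        rw [new1 a i hi2, new1 b i hi2]
        have hx1 := hn i _ (hxB i hi2).1 (hxB i hi2).2
        have hy1 := hn i _ (hyB i hi2).1 (hyB i hi2).2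
        exact (hCl3 _ _ _ _ (hD.cl i hi _ (hxB i hi2).1) (hD.cl i hi _ (hyB i hi2).1) hx1.1 hx1.2
          hy1.1 hy1.2 (bas_inj (hD.bas i) (hxB i hi2).1 (hyB i hi2).1 (hne i hi2))).1
      · rw [new2 a c hcX, new2 b c hcX]
        exact hD.cl i hi c (hB'sub i hc)
    · intro i hi c hc
      rw [new2 b c (hnotX i (hone i hi) c (hB'sub i hc))]
      exact hD.uv i hi c (hB'sub i hc)
    · intro i c hc
      by_cases hcX : c ∈ X
      · obtain ⟨hi2, rfl⟩ := hXB i c (hB'sub i hc) hcX
        rw [new1 a i hi2, new1 b i hi2]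
        have hi : i ∈ s := by
          by_contra h
          exact hone i h hi2
        have hx1 := hn i _ (hxB i hi2).1 (hxB i hi2).2
        have hy1 := hn i _ (hyB i hi2).1 (hyB i hi2).2
        exact (hCl3 _ _ _ _ (hD.cl i hi _ (hxB i hi2).1) (hD.cl i hi _ (hyB i hi2).1) hx1.1 hx1.2
          hy1.1 hy1.2 (bas_inj (hD.bas i) (hxB i hi2).1 (hyB i hi2).1 (hne i hi2))).2
      · rw [new2 a c hcX, new2 b c hcX]
        exact hD.sr i c (hB'sub i hc)
  have hsat := IH _ _ _ hD'
  -- bookkeeping
  set M := Finset.univ.biUnion B with hMdef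
  set Z := M.filter (fun c => b c v = 0) with hZdef
  set Mst := M.filter (fun c => b c v ≠ 0) with hMst
  have hMZ : M = Z ∪ Mst := by
    ext c
    rw [hZdef, hMst, Finset.mem_union, Finset.mem_filter, Finset.mem_filter]
    by_cases h : b c v = 0
    · simp [h]
    · simp [h]
  have hmem : ∀ c, c ∈ M ↔ ∃ i, c ∈ B i := by
    intro c
    rw [hMdef, Finset.mem_biUnion]
    constructor
    · rintro ⟨i, _, h⟩; exact ⟨i, h⟩
    · rintro ⟨i, h⟩; exact ⟨i, Finset.mem_univ _, h⟩
  have hZ0 : ∀ c ∈ Z, a c v = 0 := by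
    intro c hc
    rw [hZdef, Finset.mem_filter, hmem] at hc
    obtain ⟨⟨i, hi⟩, h⟩ := hc
    exact (hD.sr i c hi v).2 h
  have hM1 : ∀ c ∈ Mst, a c v = 1 := by
    intro c hc
    rw [hMst, Finset.mem_filter, hmem] at hc
    obtain ⟨⟨i, hi⟩, h⟩ := hc
    exact (hn i c hi h).1
  have hinS : ∀ c ∈ M, InS (insert v S) (a c) := by
    intro c hc
    obtain ⟨i, hi⟩ := (hmem c).1 hc
    intro w hw
    exact (hD.sr i c hi w).2 ((hD.bas i).2.2 c hi w hw)
  have hZin : ∀ c ∈ Z, InS S (a c) := by
    intro c hc w hw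
    by_cases h : w = v
    · rw [h]; exact hZ0 c hc
    · apply hinS c (Finset.mem_filter.1 hc).1
      rw [Finset.mem_insert]
      rintro (h' | h')
      · exact h h'
      · exact hw h'
  have hdin : ∀ c ∈ Mst, ∀ d ∈ Mst, InS S (a c - a d) := by
    intro c hc d hd w hw
    rw [Pi.sub_apply]
    by_cases h : w = v
    · rw [h, hM1 c hc, hM1 d hd, sub_self]
    · have hw' : w ∉ insert v S := by
        rw [Finset.mem_insert]
        rintro (h' | h')
        · exact h h'
        · exact hw h'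
      rw [hinS c (Finset.mem_filter.1 hc).1 w hw', hinS d (Finset.mem_filter.1 hd).1 w hw',
        sub_self]
  have hcard : Mst.card = p + I2.card := by
    have h1 : Mst = Finset.univ.biUnion (fun i => (B i).filter (fun c => b c v ≠ 0)) := by
      ext c
      rw [hMst, Finset.mem_filter, hmem, Finset.mem_biUnion]
      constructor
      · rintro ⟨⟨i, hi⟩, h⟩
        exact ⟨i, Finset.mem_univ _, Finset.mem_filter.2 ⟨hi, h⟩⟩
      · rintro ⟨i, _, hi⟩
        rw [Finset.mem_filter] at hi
        exact ⟨⟨i, hi.1⟩, hi.2⟩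
    rw [h1, Finset.card_biUnion]
    · have h2 : ∀ i : Fin p, ((B i).filter (fun c => b c v ≠ 0)).card =
          1 + if i ∈ I2 then 1 else 0 := by
        intro i
        by_cases hi : i ∈ I2
        · rw [if_pos hi]
          rw [hI2, Finset.mem_filter] at hi
          rw [hi.2]
        · rw [if_neg hi]
          rcases ht i with h | h
          · rw [h]
          · exact absurd (by rw [hI2, Finset.mem_filter]; exact ⟨Finset.mem_univ _, h⟩) hi
      rw [Finset.sum_congr rfl (fun i _ => h2 i), Finset.sum_add_distrib]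
      simp
    · intro i _ j _ hij
      exact (hD.disj i j hij).mono (Finset.filter_subset _ _) (Finset.filter_subset _ _)
  have hM' : Finset.univ.biUnion B' = X ∪ Z := by
    ext c
    rw [Finset.mem_biUnion, Finset.mem_union]
    constructor
    · rintro ⟨i, _, hi⟩
      by_cases hcX : c ∈ X
      · exact Or.inl hcX
      · right
        rw [hZdef, Finset.mem_filter, hmem]
        refine ⟨⟨i, hB'sub i hi⟩, ?_⟩
        by_cases hi2 : i ∈ I2
        · rw [hB'1 i hi2, Finset.mem_erase] at hi
          apply hother i hi2 c hi.2 _ hi.1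
          rintro rfl
          apply hcX
          rw [hX, Finset.mem_image]; exact ⟨i, hi2, rfl⟩
        · rw [hB'2 i hi2, Finset.mem_filter] at hi
          exact hi.2
    · rintro (h | h)
      · rw [hX, Finset.mem_image] at h
        obtain ⟨i, hi, rfl⟩ := h
        refine ⟨i, Finset.mem_univ _, ?_⟩
        rw [hB'1 i hi, Finset.mem_erase]
        exact ⟨hne i hi, (hxB i hi).1⟩
      · rw [hZdef, Finset.mem_filter, hmem] at h
        obtain ⟨⟨i, hi⟩, h0⟩ := h
        refine ⟨i, Finset.mem_univ _, ?_⟩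
        by_cases hi2 : i ∈ I2
        · rw [hB'1 i hi2, Finset.mem_erase]
          refine ⟨?_, hi⟩
          rintro rfl
          exact (hyB i hi2).2 h0
        · rw [hB'2 i hi2, Finset.mem_filter]
          exact ⟨hi, h0⟩
  rw [hM'] at hsat
  have hZX : ∀ c ∈ Z, c ∉ X := by
    intro c hc hcX
    rw [hX, Finset.mem_image] at hcX
    obtain ⟨i, hi, rfl⟩ := hcX
    exact (hxB i hi).2 (Finset.mem_filter.1 hc).2
  have hxM : ∀ i ∈ I2, x i ∈ Mst := by
    intro i hi
    rw [hMst, Finset.mem_filter, hmem]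
    exact ⟨⟨i, (hxB i hi).1⟩, (hxB i hi).2⟩
  have hyM : ∀ i ∈ I2, y i ∈ Mst := by
    intro i hi
    rw [hMst, Finset.mem_filter, hmem]
    exact ⟨⟨i, (hyB i hi).1⟩, (hyB i hi).2⟩
  rw [hMZ]
  have hcases : I2.card = 0 ∨ I2.card = 1 ∨ I2.card = 2 := by omega
  rcases hcases with h0 | h1 | h2
  · rw [h0, add_zero] at hcard
    have hXe : X = ∅ := by
      rw [hX, Finset.image_eq_empty, ← Finset.card_eq_zero]; exact h0
    rw [hXe, Finset.empty_union] at hsat
    refine red0 hp.out.pos hv hZ0 hM1 hcard ?_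
    obtain ⟨C, h1, h2, h3, h4⟩ := hsat
    have hcong : ∀ c ∈ Z, new a c = a c := fun c hc => new2 a c (hZX c hc)
    exact ⟨C, h1, h2, li_congr' (fun c hc => hcong c (h1 hc)) h3, by
      rw [pr_congr (b := a) (fun c hc => hcong c (Finset.mem_sdiff.1 hc).1)] at h4; exact h4⟩
  · rw [h1] at hcard
    obtain ⟨i, hi⟩ := Finset.card_eq_one.1 h1
    have hiI : i ∈ I2 := by rw [hi]; simp
    have hXe : X = {x i} := by rw [hX, hi, Finset.image_singleton]
    have hXZ : X ∪ Z = insert (x i) Z := by rw [hXe]; rfl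
    rw [hXZ] at hsat
    exact red1 (a' := new a) hv hZ0 hM1 hcard (hxM i hiI) (hyM i hiI) (hne i hiI) hZin
      (hdin _ (hxM i hiI) _ (hyM i hiI)) (new1 a i hiI) (fun c hc => new2 a c (hZX c hc)) hsat
  · rw [h2] at hcard
    obtain ⟨i, j, hij, hI⟩ := Finset.card_eq_two.1 h2
    have hiI : i ∈ I2 := by rw [hI]; simp
    have hjI : j ∈ I2 := by rw [hI]; simp
    have hXe : X = {x i, x j} := by rw [hX, hI, Finset.image_insert, Finset.image_singleton]
    have hXZ : X ∪ Z = insert (x i) (insert (x j) Z) := by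
      rw [hXe, Finset.insert_union]; rfl
    rw [hXZ] at hsat
    have hne' : ∀ c d, c ∈ B i → d ∈ B j → c ≠ d := by
      intro c d hc hd h
      subst h
      exact hij (hBd i j c hc hd)
    exact red2 (a' := new a) hv hZ0 hM1 hcard (hxM i hiI) (hyM i hiI) (hxM j hjI) (hyM j hjI)
      (hne i hiI) (hne' _ _ (hxB i hiI).1 (hxB j hjI).1) (hne' _ _ (hxB i hiI).1 (hyB j hjI).1)
      (hne' _ _ (hyB i hiI).1 (hxB j hjI).1) (hne' _ _ (hyB i hiI).1 (hyB j hjI).1) hZin
      (hdin _ (hxM i hiI) _ (hyM i hiI)) (new1 a i hiI) (new1 a j hjI)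
      (fun c hc => new2 a c (hZX c hc)) hsat

end reduce

end Pool.Agent.H91AT
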