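import Pool.Agent.Helper91_AT3.Coeff

set_option autoImplicit false
set_option linter.unusedSectionVars false

namespace Pool.Agent.H91AT

open MvPolynomial Submodule

variable {σ K ι : Type*} [DecidableEq σ] [Fintype σ] [Field K] [DecidableEq ι]

lemma li_insert {a : ι → σ → K} {J : Finset ι} {x : ι} (hx : x ∉ J) :
    LinearIndepOn K a ((insert x J : Finset ι) : Set ι) ↔
      LinearIndepOn K a (J : Set ι) ∧ a x ∉ span K (a '' (J : Set ι)) := by
  rw [Finset.coe_insert, linearIndepOn_insert (by simpa using hx)]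

lemma span_zero {v : σ} {a : ι → σ → K} {J : Finset ι} (h0 : ∀ c ∈ J, a c v = 0) {y : σ → K}
    (hy : y ∈ span K (a '' (J : Set ι))) : y v = 0 := by
  have h : span K (a '' (J : Set ι)) ≤ LinearMap.ker (LinearMap.proj (R := K) (φ := fun _ => K) v) := by
    rw [span_le]
    rintro _ ⟨c, hc, rfl⟩
    exact h0 c hc
  exact h hy

lemma star_notMem {v : σ} {a : ι → σ → K} {J : Finset ι} (h0 : ∀ c ∈ J, a c v = 0) {y : σ → K}
    (hy : y v = 1) : y ∉ span K (a '' (J : Set ι)) := by
  intro h
  have := span_zero h0 h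
  rw [hy] at this
  exact one_ne_zero this

lemma pair_notMem {v : σ} {a : ι → σ → K} {J : Finset ι} (h0 : ∀ c ∈ J, a c v = 0)
    {x y : ι} (hx : a x v = 1) (hy : a y v = 1)
    (hd : a x - a y ∉ span K (a '' (J : Set ι))) :
    a y ∉ span K (a '' ((insert x J : Finset ι) : Set ι)) := by
  intro h
  rw [Finset.coe_insert, Set.image_insert_eq, mem_span_insert] at h
  obtain ⟨k, z, hz, hk⟩ := h
  have hz0 := span_zero h0 hz
  have h1 : a y v = k * a x v + z v := by rw [hk]; rfl
  rw [hx, hy, hz0, mul_one, add_zero] at h1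
  apply hd
  rw [hk, ← h1, one_smul]
  have : a x - (a x + z) = -z := by abel
  rw [this]
  exact Submodule.neg_mem _ hz

lemma li_star {v : σ} {a : ι → σ → K} {J : Finset ι} (h0 : ∀ c ∈ J, a c v = 0)
    (hJ : LinearIndepOn K a (J : Set ι)) {x : ι} (hx : a x v = 1) :
    x ∉ J ∧ LinearIndepOn K a ((insert x J : Finset ι) : Set ι) := by
  have hxJ : x ∉ J := by
    intro h
    have := h0 x h
    rw [hx] at this
    exact one_ne_zero this
  exact ⟨hxJ, (li_insert hxJ).2 ⟨hJ, star_notMem h0 hx⟩⟩

lemma li_pair {v : σ} {a : ι → σ → K} {J : Finset ι} (h0 : ∀ c ∈ J, a c v = 0)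
    (hJ : LinearIndepOn K a (J : Set ι)) {x y : ι} (hx : a x v = 1) (hy : a y v = 1)
    (hxy : x ≠ y) (hd : a x - a y ∉ span K (a '' (J : Set ι))) :
    y ∉ insert x J ∧ LinearIndepOn K a ((insert y (insert x J) : Finset ι) : Set ι) := by
  obtain ⟨hxJ, h1⟩ := li_star h0 hJ hx
  have hyJ := (li_star h0 hJ hy).1
  have hy2 : y ∉ insert x J := by
    rw [Finset.mem_insert]
    rintro (h | h)
    · exact hxy h.symm
    · exact hyJ h
  exact ⟨hy2, (li_insert hy2).2 ⟨h1, pair_notMem h0 hx hy hd⟩⟩

section core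

variable {p : ℕ} {v : σ} {S : Finset σ} {a : ι → σ → K} {Z Mst J R : Finset ι}

lemma disj_of (hZ : ∀ c ∈ Z, a c v = 0) (hM : ∀ c ∈ Mst, a c v = 1) : Disjoint Mst Z := by
  rw [Finset.disjoint_left]
  intro c hc hc'
  have := hM c hc
  rw [hZ c hc'] at this
  exact zero_ne_one this

lemma compl_eq (hd : Disjoint Mst Z) (hJ : J ⊆ Z) (hR : R ⊆ Mst) :
    (Z ∪ Mst) \ (J ∪ R) = (Mst \ R) ∪ (Z \ J) := by
  rw [Finset.disjoint_left] at hd
  ext c
  simp only [Finset.mem_sdiff, Finset.mem_union]
  constructor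
  · rintro ⟨h1 | h1, h2⟩
    · right; exact ⟨h1, fun h => h2 (Or.inl h)⟩
    · left; exact ⟨h1, fun h => h2 (Or.inr h)⟩
  · rintro (⟨h1, h2⟩ | ⟨h1, h2⟩)
    · refine ⟨Or.inr h1, ?_⟩
      rintro (h | h)
      · exact hd h1 (hJ h)
      · exact h2 h
    · refine ⟨Or.inl h1, ?_⟩
      rintro (h | h)
      · exact h2 h
      · exact hd (hR h) h1

lemma core2 (hv : v ∉ S) (hZ : ∀ c ∈ Z, a c v = 0) (hM : ∀ c ∈ Mst, a c v = 1)
    (hJ : J ⊆ Z) (hR : R ⊆ Mst) (hT : (Mst \ R).card = p - 1)
    (hli : LinearIndepOn K a ((J ∪ R : Finset ι) : Set ι)) (hcard : J.card + R.card = S.card + 1)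
    (hF : Fn p S (pr a (Z \ J)) ≠ 0) : Sat p (insert v S) (Z ∪ Mst) a := by
  have hd := disj_of hZ hM
  refine ⟨J ∪ R, Finset.union_subset_union hJ hR, ?_, hli, ?_⟩
  · rw [Finset.card_union_of_disjoint ((hd.mono hR hJ).symm), Finset.card_insert_of_notMem hv,
      hcard]
  · rw [compl_eq hd hJ hR, Fn_card_two hv a hT (fun t ht => hM t (Finset.mem_sdiff.1 ht).1)
      (fun c hc => hZ c (Finset.mem_sdiff.1 hc).1)
      (hd.mono Finset.sdiff_subset Finset.sdiff_subset)]
    exact hF

lemma core3 (hp : 0 < p) (hv : v ∉ S) (hZ : ∀ c ∈ Z, a c v = 0) (hM : ∀ c ∈ Mst, a c v = 1)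
    (hJ : J ⊆ Z) (hR : R ⊆ Mst) (hT : (Mst \ R).card = p)
    (hli : LinearIndepOn K a ((J ∪ R : Finset ι) : Set ι)) (hcard : J.card + R.card = S.card + 1)
    (hF : ∑ t ∈ Mst \ R, Fn p S (lf (tl v (a t)) * pr a (Z \ J)) ≠ 0) :
    Sat p (insert v S) (Z ∪ Mst) a := by
  have hd := disj_of hZ hM
  refine ⟨J ∪ R, Finset.union_subset_union hJ hR, ?_, hli, ?_⟩
  · rw [Finset.card_union_of_disjoint ((hd.mono hR hJ).symm), Finset.card_insert_of_notMem hv,
      hcard]
  · rw [compl_eq hd hJ hR, Fn_card_three hp hv a hT (fun t ht => hM t (Finset.mem_sdiff.1 ht).1)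
      (fun c hc => hZ c (Finset.mem_sdiff.1 hc).1)
      (hd.mono Finset.sdiff_subset Finset.sdiff_subset)]
    exact hF

end core

/-- vectors supported in `S` -/
def VS (K : Type*) [Field K] (S : Finset σ) : Submodule K (σ → K) where
  carrier := {x | InS S x}
  add_mem' := by
    intro x y hx hy w hw
    rw [Pi.add_apply, hx w hw, hy w hw, add_zero]
  zero_mem' := fun w _ => rfl
  smul_mem' := by
    intro c x hx w hw
    rw [Pi.smul_apply, hx w hw, smul_zero]

lemma mem_VS {S : Finset σ} {x : σ → K} : x ∈ VS K S ↔ InS S x := Iff.rfl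

lemma finrank_VS (S : Finset σ) : Module.finrank K (VS K S) ≤ S.card := by
  let f : VS K S →ₗ[K] (S → K) :=
    { toFun := fun x s => (x : σ → K) s
      map_add' := fun _ _ => rfl
      map_smul' := fun _ _ => rfl }
  have hf : Function.Injective f := by
    intro x y hxy
    apply Subtype.ext
    funext w
    by_cases hw : w ∈ S
    · exact congrFun hxy ⟨w, hw⟩
    · rw [x.2 w hw, y.2 w hw]
  have := LinearMap.finrank_le_finrank_of_injective hf
  rw [Module.finrank_pi, Fintype.card_coe] at this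
  exact this

lemma span_eq_VS {S : Finset σ} {a : ι → σ → K} {J : Finset ι}
    (hJ : LinearIndepOn K a (J : Set ι)) (hin : ∀ c ∈ J, InS S (a c)) (hcard : J.card = S.card) :
    span K (a '' (J : Set ι)) = VS K S := by
  apply Submodule.eq_of_le_of_finrank_le
  · rw [span_le]
    rintro _ ⟨c, hc, rfl⟩
    exact hin c hc
  · have h1 : Module.finrank K (span K (Set.range (fun c : (J : Set ι) => a c))) =
        Fintype.card (J : Set ι) := finrank_span_eq_card hJ
    have h2 : Set.range (fun c : (J : Set ι) => a c) = a '' (J : Set ι) := by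
      rw [Set.image_eq_range]
    rw [h2] at h1
    rw [h1]
    have h3 : Fintype.card (J : Set ι) = J.card := by simp
    rw [h3, hcard]
    exact finrank_VS S

lemma expand {p : ℕ} {S : Finset σ} {a : ι → σ → K} {J : Finset ι}
    (hJ : LinearIndepOn K a (J : Set ι)) (hin : ∀ c ∈ J, InS S (a c)) (hcard : J.card = S.card)
    {d : σ → K} (hd : InS S d) {Q : MvPolynomial σ K} (hF : Fn p S (lf d * Q) ≠ 0) :
    ∃ c ∈ J, Fn p S (lf (a c) * Q) ≠ 0 ∧ d ∉ span K (a '' ((J.erase c : Finset ι) : Set ι)) := by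
  have hmem : d ∈ span K (a '' (J : Set ι)) := by
    rw [span_eq_VS hJ hin hcard]; exact hd
  rw [Submodule.mem_span_image_finset_iff_exists_fun'] at hmem
  obtain ⟨c, hc⟩ := hmem
  have h1 : Fn p S (lf d * Q) = ∑ i ∈ J, c i * Fn p S (lf (a i) * Q) := by
    rw [← hc, map_sum, Finset.sum_mul, map_sum]
    apply Finset.sum_congr rfl
    intro i _
    rw [map_smul, smul_mul_assoc, map_smul, smul_eq_mul]
  rw [h1] at hF
  obtain ⟨i, hi, hne⟩ := Finset.exists_ne_zero_of_sum_ne_zero hF
  refine ⟨i, hi, right_ne_zero_of_mul hne, ?_⟩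
  intro hd'
  have hci : c i ≠ 0 := left_ne_zero_of_mul hne
  have hJ2 : LinearIndepOn K a ((insert i (J.erase i) : Finset ι) : Set ι) := by
    rw [Finset.insert_erase hi]; exact hJ
  rw [li_insert (Finset.notMem_erase i J)] at hJ2
  apply hJ2.2
  have h2 : c i • a i = d - ∑ j ∈ J.erase i, c j • a j := by
    rw [← hc, ← Finset.add_sum_erase J (fun j => c j • a j) hi]
    abel
  have h3 : c i • a i ∈ span K (a '' ((J.erase i : Finset ι) : Set ι)) := by
    rw [h2]
    apply Submodule.sub_mem _ hd'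
    apply Submodule.sum_mem
    intro j hj
    exact Submodule.smul_mem _ _ (subset_span ⟨j, Finset.mem_coe.2 hj, rfl⟩)
  have h4 := Submodule.smul_mem _ (c i)⁻¹ h3
  rw [smul_smul, inv_mul_cancel₀ hci, one_smul] at h4
  exact h4

lemma algp {p : ℕ} [hp : Fact p.Prime] [CharP K p] {M : Finset ι} (hcM : M.card = p + 2)
    (φ : ι → K) {x y z w : ι} (hx : x ∈ M) (hy : y ∈ M) (hz : z ∈ M) (hw : w ∈ M)
    (hxz : x ≠ z) (hxw : x ≠ w) (hyz : y ≠ z) (hyw : y ≠ w)
    (hsum : ∑ t ∈ M, φ t = φ x + φ y) (alt : ∀ t ∈ M, φ t = φ x ∨ φ t = φ y) : φ z = φ w := by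
  classical
  by_contra hzw
  have hxy : φ x ≠ φ y := by
    intro h
    apply hzw
    rcases alt z hz with h1 | h1 <;> rcases alt w hw with h2 | h2 <;> rw [h1, h2]
    · exact h
    · exact h.symm
  -- the two classes
  set A := M.filter (fun t => φ t = φ x) with hA
  set B := M.filter (fun t => ¬ φ t = φ x) with hB
  have hAB : A.card + B.card = p + 2 := by
    rw [hA, hB, Finset.card_filter_add_card_filter_not, hcM]
  have hBφ : ∀ t ∈ B, φ t = φ y := by
    intro t ht
    rw [hB, Finset.mem_filter] at ht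
    exact (alt t ht.1).resolve_left ht.2
  have hs : ∑ t ∈ M, φ t = (A.card : K) * φ x + (B.card : K) * φ y := by
    rw [← Finset.sum_filter_add_sum_filter_not M (fun t => φ t = φ x)]
    congr 1
    · rw [Finset.sum_congr rfl (fun t ht => (Finset.mem_filter.1 ht).2), Finset.sum_const,
        nsmul_eq_mul]
    · rw [Finset.sum_congr rfl hBφ, Finset.sum_const, nsmul_eq_mul]
  have hp0 : (p : K) = 0 := CharP.cast_eq_zero K p
  have hBc : (B.card : K) = 2 - (A.card : K) := by
    have : ((A.card + B.card : ℕ) : K) = ((p + 2 : ℕ) : K) := by rw [hAB]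
    push_cast at this
    rw [hp0, zero_add] at this
    linear_combination this
  rw [hs, hBc] at hsum
  have h1 : ((A.card : K) - 1) * (φ x - φ y) = 0 := by linear_combination hsum
  have h2 : (A.card : K) - 1 = 0 := (mul_eq_zero.1 h1).resolve_right (sub_ne_zero.2 hxy)
  -- both classes have at least two elements
  have hxA : x ∈ A := by rw [hA, Finset.mem_filter]; exact ⟨hx, rfl⟩
  have hyB : y ∈ B := by rw [hB, Finset.mem_filter]; exact ⟨hy, fun h => hxy h.symm⟩
  have hA2 : 2 ≤ A.card ∧ 2 ≤ B.card := by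
    rcases alt z hz with h3 | h3
    · have h4 : φ w = φ y := by
        rcases alt w hw with h4 | h4
        · exact absurd (h3.trans h4.symm) hzw
        · exact h4
      constructor
      · have : ({x, z} : Finset ι) ⊆ A := by
          intro t ht
          rw [Finset.mem_insert, Finset.mem_singleton] at ht
          rcases ht with rfl | rfl
          · exact hxA
          · rw [hA, Finset.mem_filter]; exact ⟨hz, h3⟩
        have := Finset.card_le_card this
        rwa [Finset.card_pair hxz] at this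
      · have : ({y, w} : Finset ι) ⊆ B := by
          intro t ht
          rw [Finset.mem_insert, Finset.mem_singleton] at ht
          rcases ht with rfl | rfl
          · exact hyB
          · rw [hB, Finset.mem_filter]; exact ⟨hw, fun h => hxy (h.symm.trans h4)⟩
        have := Finset.card_le_card this
        rwa [Finset.card_pair hyw] at this
    · have h4 : φ w = φ x := by
        rcases alt w hw with h4 | h4
        · exact h4
        · exact absurd (h3.trans h4.symm) hzw
      constructor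
      · have : ({x, w} : Finset ι) ⊆ A := by
          intro t ht
          rw [Finset.mem_insert, Finset.mem_singleton] at ht
          rcases ht with rfl | rfl
          · exact hxA
          · rw [hA, Finset.mem_filter]; exact ⟨hw, h4⟩
        have := Finset.card_le_card this
        rwa [Finset.card_pair hxw] at this
      · have : ({y, z} : Finset ι) ⊆ B := by
          intro t ht
          rw [Finset.mem_insert, Finset.mem_singleton] at ht
          rcases ht with rfl | rfl
          · exact hyB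
          · rw [hB, Finset.mem_filter]; exact ⟨hz, fun h => hxy (h.symm.trans h3)⟩
        have := Finset.card_le_card this
        rwa [Finset.card_pair hyz] at this
  have h5 : ((A.card - 1 : ℕ) : K) = 0 := by
    rw [Nat.cast_sub (by omega), Nat.cast_one, h2]
  rw [CharP.cast_eq_zero_iff K p] at h5
  have := Nat.le_of_dvd (by omega) h5
  omega

lemma L1 {p : ℕ} [hp : Fact p.Prime] [CharP K p] {v : σ} {S : Finset σ} {a : ι → σ → K}
    {Z J M : Finset ι} {x y z w : ι} (hv : v ∉ S) (hZ : ∀ c ∈ Z, a c v = 0)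
    (hM : ∀ c ∈ M, a c v = 1) (hcM : M.card = p + 2)
    (hx : x ∈ M) (hy : y ∈ M) (hz : z ∈ M) (hw : w ∈ M)
    (hxz : x ≠ z) (hxw : x ≠ w) (hyz : y ≠ z) (hyw : y ≠ w)
    (hJ : J ⊆ Z) (hli : LinearIndepOn K a (J : Set ι)) (hcard : J.card + 1 = S.card)
    (hd : a x - a y ∉ span K (a '' (J : Set ι)))
    (hF : Fn p S (lf (a z - a w) * pr a (Z \ J)) ≠ 0) :
    Sat p (insert v S) (Z ∪ M) a := by
  classical
  set φ : ι → K := fun t => Fn p S (lf (tl v (a t)) * pr a (Z \ J)) with hφ
  have hJ0 : ∀ c ∈ J, a c v = 0 := fun c hc => hZ c (hJ hc)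
  have hzw : φ z ≠ φ w := by
    intro h
    apply hF
    have : lf (a z - a w) = lf (tl v (a z)) - lf (tl v (a w)) := by
      rw [← map_sub, tl_sub]
    rw [this, sub_mul, map_sub]
    exact sub_eq_zero.2 h
  by_contra hcon
  have key : ∀ r ∈ M, ∀ r' ∈ M, a r - a r' ∉ span K (a '' (J : Set ι)) →
      ∑ t ∈ M, φ t = φ r + φ r' := by
    intro r hr r' hr' hrr
    by_contra hne
    apply hcon
    have hrne : r ≠ r' := by
      rintro rfl
      apply hrr
      rw [sub_self]; exact zero_mem _
    have hR : ({r, r'} : Finset ι) ⊆ M := by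
      intro t ht
      rw [Finset.mem_insert, Finset.mem_singleton] at ht
      rcases ht with rfl | rfl
      · exact hr
      · exact hr'
    obtain ⟨_, hli2⟩ := li_pair hJ0 hli (hM r hr) (hM r' hr') hrne hrr
    have hcR : ({r, r'} : Finset ι).card = 2 := Finset.card_pair hrne
    refine core3 (J := J) (R := {r, r'}) hp.out.pos hv hZ hM hJ hR ?_ ?_ ?_ ?_
    · rw [Finset.card_sdiff_of_subset hR, hcM, hcR]; rfl
    · have : J ∪ {r, r'} = insert r' (insert r J) := by
        ext t; simp only [Finset.mem_union, Finset.mem_insert, Finset.mem_singleton]; tauto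
      rw [this]; exact hli2
    · rw [hcR]; omega
    · intro h0
      apply hne
      have hs := Finset.sum_sdiff (f := φ) hR
      rw [Finset.sum_pair hrne] at hs
      rw [← hs]
      change ∑ t ∈ M \ {r, r'}, φ t = 0 at h0
      rw [h0, zero_add]
  have hxy := key x hx y hy hd
  have alt : ∀ t ∈ M, φ t = φ x ∨ φ t = φ y := by
    intro t ht
    by_cases h1 : a t - a x ∈ span K (a '' (J : Set ι))
    · left
      have h2 : a t - a y ∉ span K (a '' (J : Set ι)) := by
        intro h2
        apply hd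
        have : a x - a y = (a t - a y) - (a t - a x) := by abel
        rw [this]
        exact Submodule.sub_mem _ h2 h1
      have h3 := key t ht y hy h2
      rw [hxy] at h3
      exact (add_right_cancel h3).symm
    · right
      have h3 := key t ht x hx h1
      rw [hxy, add_comm (φ t)] at h3
      exact (add_left_cancel h3).symm
  exact hzw (algp hcM φ hx hy hz hw hxz hxw hyz hyw hxy alt)

end Pool.Agent.H91AT
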