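import Pool.Agent.Helper91_AT3.Red

set_option autoImplicit false
set_option linter.unusedSectionVars false

namespace Pool.Agent.H91AT

open MvPolynomial Submodule

variable {σ K ι : Type*} [DecidableEq σ] [Fintype σ] [Field K] [DecidableEq ι]

lemma pr_congr {a b : ι → σ → K} {A : Finset ι} (h : ∀ c ∈ A, a c = b c) : pr a A = pr b A := by
  unfold pr
  apply Finset.prod_congr rfl
  intro c hc
  rw [h c hc]

lemma pr_insert {a : ι → σ → K} {A : Finset ι} {c : ι} (h : c ∉ A) :
    pr a (insert c A) = lf (a c) * pr a A := by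
  unfold pr
  rw [Finset.prod_insert h]

lemma image_congr' {a b : ι → σ → K} {A : Finset ι} (h : ∀ c ∈ A, a c = b c) :
    a '' (A : Set ι) = b '' (A : Set ι) := by
  apply Set.image_congr
  intro c hc
  exact h c hc

lemma li_congr' {a b : ι → σ → K} {A : Finset ι} (h : ∀ c ∈ A, a c = b c)
    (hli : LinearIndepOn K a (A : Set ι)) : LinearIndepOn K b (A : Set ι) :=
  hli.congr (fun c hc => h c hc)

lemma red0 {p : ℕ} (hp : 0 < p) {v : σ} {S : Finset σ} {a : ι → σ → K} {Z Mst : Finset ι}
    (hv : v ∉ S) (hZ : ∀ c ∈ Z, a c v = 0) (hM : ∀ c ∈ Mst, a c v = 1) (hcM : Mst.card = p)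
    (h : Sat p S Z a) : Sat p (insert v S) (Z ∪ Mst) a := by
  obtain ⟨C, hCZ, hcC, hli, hF⟩ := h
  obtain ⟨x, hx⟩ : Mst.Nonempty := by rw [← Finset.card_pos, hcM]; exact hp
  have hR : ({x} : Finset ι) ⊆ Mst := Finset.singleton_subset_iff.2 hx
  refine core2 (J := C) (R := {x}) hv hZ hM hCZ hR ?_ ?_ ?_ hF
  · rw [Finset.card_sdiff_of_subset hR, hcM, Finset.card_singleton]
  · have : C ∪ {x} = insert x C := by
      ext t; simp only [Finset.mem_union, Finset.mem_insert, Finset.mem_singleton]; tauto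
    rw [this]
    exact (li_star (fun c hc => hZ c (hCZ hc)) hli (hM x hx)).2
  · rw [hcC, Finset.card_singleton]

lemma red1 {p : ℕ} {v : σ} {S : Finset σ} {a a' : ι → σ → K} {Z Mst : Finset ι} {x y : ι}
    (hv : v ∉ S) (hZ : ∀ c ∈ Z, a c v = 0) (hM : ∀ c ∈ Mst, a c v = 1) (hcM : Mst.card = p + 1)
    (hx : x ∈ Mst) (hy : y ∈ Mst) (hxy : x ≠ y)
    (hin : ∀ c ∈ Z, InS S (a c)) (hind : InS S (a x - a y))
    (hx' : a' x = a x - a y) (hax : ∀ c ∈ Z, a' c = a c)
    (h : Sat p S (insert x Z) a') :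
    Sat p (insert v S) (Z ∪ Mst) a := by
  obtain ⟨C, hCZ, hcC, hli, hF⟩ := h
  have hd := disj_of hZ hM
  have hxZ : x ∉ Z := Finset.disjoint_left.1 hd hx
  have hR : ({x, y} : Finset ι) ⊆ Mst := by
    intro t ht
    rw [Finset.mem_insert, Finset.mem_singleton] at ht
    rcases ht with rfl | rfl
    · exact hx
    · exact hy
  have hcR : ({x, y} : Finset ι).card = 2 := Finset.card_pair hxy
  have hT : (Mst \ {x, y}).card = p - 1 := by
    rw [Finset.card_sdiff_of_subset hR, hcM, hcR]; omega
  have hun : ∀ J : Finset ι, J ∪ {x, y} = insert y (insert x J) := by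
    intro J
    ext t; simp only [Finset.mem_union, Finset.mem_insert, Finset.mem_singleton]; tauto
  by_cases hxC : x ∈ C
  · -- `d` in the complement
    set J := C.erase x with hJdef
    have hJZ : J ⊆ Z := by
      intro c hc
      rw [hJdef, Finset.mem_erase] at hc
      exact (Finset.mem_insert.1 (hCZ hc.2)).resolve_left hc.1
    have hxJ : x ∉ J := fun h => hxZ (hJZ h)
    have hCJ : insert x J = C := Finset.insert_erase hxC
    rw [← hCJ, li_insert hxJ] at hli
    have haJ : ∀ c ∈ J, a' c = a c := fun c hc => hax c (hJZ hc)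
    have hliJ := li_congr' haJ hli.1
    have hdJ : a x - a y ∉ span K (a '' (J : Set ι)) := by
      have := hli.2
      rw [image_congr' haJ, hx'] at this
      exact this
    obtain ⟨_, h2⟩ := li_pair (fun c hc => hZ c (hJZ hc)) hliJ (hM x hx) (hM y hy) hxy hdJ
    refine core2 (J := J) (R := {x, y}) hv hZ hM hJZ hR hT ?_ ?_ ?_
    · rw [hun]; exact h2
    · have : C.card = J.card + 1 := by rw [← hCJ, Finset.card_insert_of_notMem hxJ]
      omega
    · have h3 : insert x Z \ C = Z \ J := by
        rw [← hCJ]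
        ext t
        simp only [Finset.mem_sdiff, Finset.mem_insert]
        constructor
        · rintro ⟨h4 | h4, h5⟩
          · exact absurd (Or.inl h4) h5
          · exact ⟨h4, fun h6 => h5 (Or.inr h6)⟩
        · rintro ⟨h4, h5⟩
          refine ⟨Or.inr h4, ?_⟩
          rintro (h6 | h6)
          · rw [h6] at h4; exact hxZ h4
          · exact h5 h6
      rw [h3, pr_congr (b := a) (fun c hc => hax c (Finset.mem_sdiff.1 hc).1)] at hF
      exact hF
  · have hCZ' : C ⊆ Z := by
      intro c hc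
      refine (Finset.mem_insert.1 (hCZ hc)).resolve_left ?_
      rintro rfl; exact hxC hc
    have hliC : LinearIndepOn K a (C : Set ι) := li_congr' (fun c hc => hax c (hCZ' hc)) hli
    have h3 : insert x Z \ C = insert x (Z \ C) := by
      ext t
      simp only [Finset.mem_sdiff, Finset.mem_insert]
      constructor
      · rintro ⟨h4 | h4, h5⟩
        · exact Or.inl h4
        · exact Or.inr ⟨h4, h5⟩
      · rintro (h4 | h4)
        · exact ⟨Or.inl h4, by rw [h4]; exact hxC⟩
        · exact ⟨Or.inr h4.1, h4.2⟩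
    have hxZC : x ∉ Z \ C := fun h => hxZ (Finset.mem_sdiff.1 h).1
    rw [h3, pr_insert hxZC, hx',
      pr_congr (b := a) (fun c hc => hax c (Finset.mem_sdiff.1 hc).1)] at hF
    obtain ⟨c, hc, hF2, hdc⟩ := expand hliC (fun c hc => hin c (hCZ' hc)) hcC hind hF
    have hJZ : C.erase c ⊆ Z := (Finset.erase_subset _ _).trans hCZ'
    have hliJ : LinearIndepOn K a ((C.erase c : Finset ι) : Set ι) :=
      hliC.mono (by exact_mod_cast Finset.erase_subset c C)
    obtain ⟨_, h2⟩ := li_pair (fun c hc => hZ c (hJZ hc)) hliJ (hM x hx) (hM y hy) hxy hdc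
    refine core2 (J := C.erase c) (R := {x, y}) hv hZ hM hJZ hR hT ?_ ?_ ?_
    · rw [hun]; exact h2
    · rw [Finset.card_erase_of_mem hc, hcR]
      have : 0 < C.card := Finset.card_pos.2 ⟨c, hc⟩
      omega
    · have h4 : Z \ C.erase c = insert c (Z \ C) := by
        ext t
        simp only [Finset.mem_sdiff, Finset.mem_insert, Finset.mem_erase]
        constructor
        · rintro ⟨h5, h6⟩
          by_cases h7 : t = c
          · exact Or.inl h7
          · exact Or.inr ⟨h5, fun h8 => h6 ⟨h7, h8⟩⟩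
        · rintro (h5 | h5)
          · rw [h5]; exact ⟨hCZ' hc, fun h6 => h6.1 rfl⟩
          · exact ⟨h5.1, fun h6 => h5.2 h6.2⟩
      rw [h4, pr_insert (fun h => (Finset.mem_sdiff.1 h).2 hc)]
      exact hF2

end Pool.Agent.H91AT
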