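import Pool.Agent.Helper91_AT3.Red2

set_option autoImplicit false
set_option linter.unusedSectionVars false

namespace Pool.Agent.H91AT

open MvPolynomial Submodule

variable {σ K ι : Type*} [DecidableEq σ] [Fintype σ] [Field K] [DecidableEq ι]

lemma triple_notMem {v : σ} {a : ι → σ → K} {J : Finset ι} (h0 : ∀ c ∈ J, a c v = 0)
    {x y z w : ι} (hx : a x v = 1) (hy : a y v = 1) (hz : a z v = 1) (hw : a w v = 1)
    (hd : a z - a w ∉ span K (insert (a x - a y) (a '' (J : Set ι)))) :
    a z ∉ span K (a '' ((insert y (insert x J) : Finset ι) : Set ι)) ∨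
    a w ∉ span K (a '' ((insert y (insert x J) : Finset ι) : Set ι)) := by
  by_contra hcon
  push Not at hcon
  apply hd
  have h1 := Submodule.sub_mem _ hcon.1 hcon.2
  rw [Finset.coe_insert, Finset.coe_insert, Set.image_insert_eq, Set.image_insert_eq,
    mem_span_insert] at h1
  obtain ⟨k, s, hs, hk⟩ := h1
  rw [mem_span_insert] at hs
  obtain ⟨l, j, hj, hl⟩ := hs
  have hj0 := span_zero h0 hj
  have h2 : (a z - a w) v = k * a y v + (l * a x v + j v) := by
    rw [hk, hl]; rfl
  rw [Pi.sub_apply, hz, hw, hy, hx, hj0, mul_one, mul_one, add_zero, sub_self] at h2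
  have h3 : k = -l := by linear_combination -h2
  rw [mem_span_insert]
  refine ⟨l, j, hj, ?_⟩
  rw [hk, hl, h3, smul_sub, neg_smul]
  abel

lemma sdiff_erase' {Z C : Finset ι} {c : ι} (hc : c ∈ C) (hCZ : C ⊆ Z) :
    Z \ C.erase c = insert c (Z \ C) := by
  ext t
  simp only [Finset.mem_sdiff, Finset.mem_insert, Finset.mem_erase]
  constructor
  · rintro ⟨h5, h6⟩
    by_cases h7 : t = c
    · exact Or.inl h7
    · exact Or.inr ⟨h5, fun h8 => h6 ⟨h7, h8⟩⟩
  · rintro (h5 | h5)
    · rw [h5]; exact ⟨hCZ hc, fun h6 => h6.1 rfl⟩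
    · exact ⟨h5.1, fun h6 => h5.2 h6.2⟩

lemma union3 (J : Finset ι) (t y x : ι) :
    J ∪ {t, y, x} = insert t (insert y (insert x J)) := by
  ext s
  simp only [Finset.mem_union, Finset.mem_insert, Finset.mem_singleton]
  tauto

lemma sd3 {x z : ι} {Z J : Finset ι} (hxZ : x ∉ Z) (hzZ : z ∉ Z) :
    insert x (insert z Z) \ insert z (insert x J) = Z \ J := by
  ext t
  simp only [Finset.mem_sdiff, Finset.mem_insert]
  constructor
  · rintro ⟨h4 | h4 | h4, h5⟩
    · exact absurd (Or.inr (Or.inl h4)) h5
    · exact absurd (Or.inl h4) h5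
    · exact ⟨h4, fun h6 => h5 (Or.inr (Or.inr h6))⟩
  · rintro ⟨h4, h5⟩
    refine ⟨Or.inr (Or.inr h4), ?_⟩
    rintro (h6 | h6 | h6)
    · rw [h6] at h4; exact hzZ h4
    · rw [h6] at h4; exact hxZ h4
    · exact h5 h6

/-- the case in which exactly one of the two new elements is in the complement -/
lemma red2_one {p : ℕ} [hp : Fact p.Prime] [CharP K p] {v : σ} {S : Finset σ}
    {a a' : ι → σ → K} {Z M : Finset ι} {x y z w : ι} (hv : v ∉ S) (hZ : ∀ c ∈ Z, a c v = 0)
    (hM : ∀ c ∈ M, a c v = 1) (hcM : M.card = p + 2)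
    (hx : x ∈ M) (hy : y ∈ M) (hz : z ∈ M) (hw : w ∈ M)
    (hxw : x ≠ w) (hyz : y ≠ z) (hyw : y ≠ w)
    (hx' : a' x = a x - a y) (hz' : a' z = a z - a w) (ha' : ∀ c ∈ Z, a' c = a c)
    (hxz : x ≠ z) (hxZ : x ∉ Z) (hzZ : z ∉ Z)
    {C : Finset ι} (hC : C ⊆ insert x (insert z Z)) (hcC : C.card = S.card)
    (hli : LinearIndepOn K a' (C : Set ι))
    (hF : Fn p S (pr a' (insert x (insert z Z) \ C)) ≠ 0) (hxC : x ∈ C) (hzC : z ∉ C) :
    Sat p (insert v S) (Z ∪ M) a := by
  set J := C.erase x with hJdef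
  have hJZ : J ⊆ Z := by
    intro c hc
    rw [hJdef, Finset.mem_erase] at hc
    have h1 := (Finset.mem_insert.1 (hC hc.2)).resolve_left hc.1
    refine (Finset.mem_insert.1 h1).resolve_left ?_
    rintro rfl; exact hzC hc.2
  have hxJ : x ∉ J := fun h => hxZ (hJZ h)
  have hCJ : insert x J = C := Finset.insert_erase hxC
  rw [← hCJ, li_insert hxJ] at hli
  have haJ : ∀ c ∈ J, a' c = a c := fun c hc => ha' c (hJZ hc)
  have hliJ := li_congr' haJ hli.1
  have hdJ : a x - a y ∉ span K (a '' (J : Set ι)) := by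
    have := hli.2
    rw [image_congr' haJ, hx'] at this
    exact this
  have h3 : insert x (insert z Z) \ C = insert z (Z \ J) := by
    rw [← hCJ]
    ext t
    simp only [Finset.mem_sdiff, Finset.mem_insert]
    constructor
    · rintro ⟨h4 | h4 | h4, h5⟩
      · exact absurd (Or.inl h4) h5
      · exact Or.inl h4
      · exact Or.inr ⟨h4, fun h6 => h5 (Or.inr h6)⟩
    · rintro (h4 | ⟨h4, h5⟩)
      · refine ⟨Or.inr (Or.inl h4), ?_⟩
        rintro (h6 | h6)
        · rw [h4] at h6; exact hxz h6.symm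
        · rw [h4] at h6; exact hzZ (hJZ h6)
      · refine ⟨Or.inr (Or.inr h4), ?_⟩
        rintro (h6 | h6)
        · rw [h6] at h4; exact hxZ h4
        · exact h5 h6
  rw [h3, pr_insert (fun h => hzZ (Finset.mem_sdiff.1 h).1), hz',
    pr_congr (b := a) (fun c hc => ha' c (Finset.mem_sdiff.1 hc).1)] at hF
  refine L1 hv hZ hM hcM hx hy hz hw hxz hxw hyz hyw hJZ hliJ ?_ hdJ hF
  have : C.card = J.card + 1 := by rw [← hCJ, Finset.card_insert_of_notMem hxJ]
  omega

lemma red2 {p : ℕ} [hp : Fact p.Prime] [CharP K p] {v : σ} {S : Finset σ}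
    {a a' : ι → σ → K} {Z M : Finset ι} {x y z w : ι} (hv : v ∉ S) (hZ : ∀ c ∈ Z, a c v = 0)
    (hM : ∀ c ∈ M, a c v = 1) (hcM : M.card = p + 2)
    (hxM : x ∈ M) (hyM : y ∈ M) (hzM : z ∈ M) (hwM : w ∈ M)
    (hxy : x ≠ y) (hxz : x ≠ z) (hxw : x ≠ w) (hyz : y ≠ z) (hyw : y ≠ w)
    (hin : ∀ c ∈ Z, InS S (a c)) (hin1 : InS S (a x - a y))
    (hx' : a' x = a x - a y) (hz' : a' z = a z - a w) (ha' : ∀ c ∈ Z, a' c = a c)
    (h : Sat p S (insert x (insert z Z)) a') :
    Sat p (insert v S) (Z ∪ M) a := by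
  obtain ⟨C, hC, hcC, hli, hF⟩ := h
  have hd := disj_of hZ hM
  have hxZ : x ∉ Z := Finset.disjoint_left.1 hd hxM
  have hzZ : z ∉ Z := Finset.disjoint_left.1 hd hzM
  by_cases hxC : x ∈ C
  · by_cases hzC : z ∈ C
    · -- both in the complement
      set J := (C.erase x).erase z with hJdef
      have hJZ : J ⊆ Z := by
        intro c hc
        rw [hJdef, Finset.mem_erase, Finset.mem_erase] at hc
        have h1 := (Finset.mem_insert.1 (hC hc.2.2)).resolve_left hc.2.1
        exact (Finset.mem_insert.1 h1).resolve_left hc.1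
      have hxJ : x ∉ J := fun h => hxZ (hJZ h)
      have hzJ : z ∉ insert x J := by
        rw [Finset.mem_insert]
        rintro (h | h)
        · exact hxz h.symm
        · exact hzZ (hJZ h)
      have hCJ : insert z (insert x J) = C := by
        rw [Finset.insert_comm, hJdef, Finset.insert_erase, Finset.insert_erase hxC]
        rw [Finset.mem_erase]; exact ⟨fun h => hxz h.symm, hzC⟩
      rw [← hCJ, li_insert hzJ, li_insert hxJ] at hli
      have haJ : ∀ c ∈ J, a' c = a c := fun c hc => ha' c (hJZ hc)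
      have hliJ := li_congr' haJ hli.1.1
      have hdJ : a x - a y ∉ span K (a '' (J : Set ι)) := by
        have := hli.1.2
        rw [image_congr' haJ, hx'] at this
        exact this
      have hd2 : a z - a w ∉ span K (insert (a x - a y) (a '' (J : Set ι))) := by
        have := hli.2
        rw [Finset.coe_insert, Set.image_insert_eq, image_congr' haJ, hx', hz'] at this
        exact this
      have hJ0 : ∀ c ∈ J, a c v = 0 := fun c hc => hZ c (hJZ hc)
      obtain ⟨_, h2⟩ := li_pair hJ0 hliJ (hM x hxM) (hM y hyM) hxy hdJ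
      have hcC2 : C.card = J.card + 2 := by
        rw [← hCJ, Finset.card_insert_of_notMem hzJ, Finset.card_insert_of_notMem hxJ]
      have h3 : insert x (insert z Z) \ C = Z \ J := by
        rw [← hCJ]
        exact sd3 hxZ hzZ
      rw [h3, pr_congr (b := a) (fun c hc => ha' c (Finset.mem_sdiff.1 hc).1)] at hF
      have fin : ∀ t, t ∈ M → t ≠ x → t ≠ y →
          a t ∉ span K (a '' ((insert y (insert x J) : Finset ι) : Set ι)) →
          Sat p (insert v S) (Z ∪ M) a := by
        intro t htM htx hty ht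
        have hR : ({t, y, x} : Finset ι) ⊆ M := by
          intro s hs
          rw [Finset.mem_insert, Finset.mem_insert, Finset.mem_singleton] at hs
          rcases hs with rfl | rfl | rfl
          · exact htM
          · exact hyM
          · exact hxM
        have hcR : ({t, y, x} : Finset ι).card = 3 := by
          rw [Finset.card_insert_of_notMem, Finset.card_pair (Ne.symm hxy)]
          rw [Finset.mem_insert, Finset.mem_singleton]
          rintro (h | h)
          · exact hty h
          · exact htx h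
        have htJ : t ∉ insert y (insert x J) := by
          rw [Finset.mem_insert, Finset.mem_insert]
          rintro (h | h | h)
          · exact hty h
          · exact htx h
          · exact Finset.disjoint_left.1 hd htM (hJZ h)
        refine core2 (J := J) (R := {t, y, x}) hv hZ hM hJZ hR ?_ ?_ ?_ hF
        · rw [Finset.card_sdiff_of_subset hR, hcM, hcR]; omega
        · rw [union3, li_insert htJ]
          exact ⟨h2, ht⟩
        · rw [hcR]; omega
      rcases triple_notMem hJ0 (hM x hxM) (hM y hyM) (hM z hzM) (hM w hwM) hd2 with h | h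
      · exact fin z hzM (Ne.symm hxz) (Ne.symm hyz) h
      · exact fin w hwM (Ne.symm hxw) (Ne.symm hyw) h
    · exact red2_one hv hZ hM hcM hxM hyM hzM hwM hxw hyz hyw hx' hz' ha' hxz hxZ hzZ hC hcC hli
        hF hxC hzC
  · by_cases hzC : z ∈ C
    · -- only the second new element in the complement: symmetric
      have hcomm : insert z (insert x Z) = insert x (insert z Z) := Finset.insert_comm z x Z
      refine red2_one (a' := a') (C := C) hv hZ hM hcM hzM hwM hxM hyM (Ne.symm hyz)
        (Ne.symm hxw) (Ne.symm hyw) hz' hx' ha' (Ne.symm hxz) hzZ hxZ ?_ hcC hli ?_ hzC hxC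
      · rw [hcomm]; exact hC
      · rw [hcomm]; exact hF
    · have hCZ' : C ⊆ Z := by
        intro c hc
        have h1 := (Finset.mem_insert.1 (hC hc)).resolve_left (by rintro rfl; exact hxC hc)
        exact (Finset.mem_insert.1 h1).resolve_left (by rintro rfl; exact hzC hc)
      have hliC : LinearIndepOn K a (C : Set ι) := li_congr' (fun c hc => ha' c (hCZ' hc)) hli
      have h3 : insert x (insert z Z) \ C = insert x (insert z (Z \ C)) := by
        ext t
        simp only [Finset.mem_sdiff, Finset.mem_insert]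
        constructor
        · rintro ⟨h4 | h4 | h4, h5⟩
          · exact Or.inl h4
          · exact Or.inr (Or.inl h4)
          · exact Or.inr (Or.inr ⟨h4, h5⟩)
        · rintro (h4 | h4 | h4)
          · exact ⟨Or.inl h4, by rw [h4]; exact hxC⟩
          · exact ⟨Or.inr (Or.inl h4), by rw [h4]; exact hzC⟩
          · exact ⟨Or.inr (Or.inr h4.1), h4.2⟩
      have hzZC : z ∉ Z \ C := fun h => hzZ (Finset.mem_sdiff.1 h).1
      have hxZC : x ∉ insert z (Z \ C) := by
        rw [Finset.mem_insert]
        rintro (h | h)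
        · exact hxz h
        · exact hxZ (Finset.mem_sdiff.1 h).1
      rw [h3, pr_insert hxZC, pr_insert hzZC, hx', hz',
        pr_congr (b := a) (fun c hc => ha' c (Finset.mem_sdiff.1 hc).1)] at hF
      obtain ⟨c, hc, hF2, hdc⟩ := expand hliC (fun c hc => hin c (hCZ' hc)) hcC hin1 hF
      have hJZ : C.erase c ⊆ Z := (Finset.erase_subset _ _).trans hCZ'
      have hliJ : LinearIndepOn K a ((C.erase c : Finset ι) : Set ι) :=
        hliC.mono (by exact_mod_cast Finset.erase_subset c C)
      refine L1 (J := C.erase c) hv hZ hM hcM hxM hyM hzM hwM hxz hxw hyz hyw hJZ hliJ ?_ hdc ?_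
      · rw [Finset.card_erase_of_mem hc]
        have : 0 < C.card := Finset.card_pos.2 ⟨c, hc⟩
        omega
      · rw [sdiff_erase' hc hCZ', pr_insert (fun h => (Finset.mem_sdiff.1 h).2 hc)]
        rw [show lf (a z - a w) * (lf (a c) * pr a (Z \ C)) =
          lf (a c) * (lf (a z - a w) * pr a (Z \ C)) by ring]
        exact hF2

end Pool.Agent.H91AT
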